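import Pool.Agent.MultiSpec.Datum
import Pool.Agent.MultiSpec.Count
import Pool.Agent.CurveDeg.Kummer

/-!
If the generic section takes a value in the base field then the product of the roots of unity by
which an automorphism acts on the lifts is trivial.
-/

set_option autoImplicit false

namespace Pool.Agent.MultiAll

open MvPolynomial Pool.Agent.MultiSpec

private lemma claimA_acl_base {F Ω : Type*} [Field F] [Field Ω] [Algebra F Ω] {S : Set Ω}
    (a : F) : algebraMap F Ω a ∈ acl F S := by
  change IsAlgebraic (Algebra.adjoin F S) (algebraMap F Ω a)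
  exact isAlgebraic_algebraMap (algebraMap F (Algebra.adjoin F S) a)

private lemma claimA_acl_mem {F Ω : Type*} [Field F] [Field Ω] [Algebra F Ω] {S : Set Ω}
    {a : Ω} (h : a ∈ S) : a ∈ acl F S := by
  change IsAlgebraic (Algebra.adjoin F S) a
  exact isAlgebraic_algebraMap (⟨a, Algebra.subset_adjoin h⟩ : Algebra.adjoin F S)

private lemma claimA_acl_pow {F Ω : Type*} [Field F] [Field Ω] [Algebra F Ω] {S : Set Ω}
    {a : Ω} {m : ℕ} (hm : 0 < m) (h : a ^ m ∈ acl F S) : a ∈ acl F S :=
  IsAlgebraic.of_pow hm h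

private lemma claimA_acl_div {F Ω : Type*} [Field F] [Field Ω] [Algebra F Ω] {S : Set Ω}
    {a b : Ω} (hb : b ≠ 0) (hbS : b ∈ acl F S) (h : b * a ∈ acl F S) : a ∈ acl F S := by
  have := (acl F S).mul_mem ((acl F S).inv_mem hbS) h
  rwa [inv_mul_cancel_left₀ hb] at this

private lemma claimA_acl_ev {F Ω : Type*} [Field F] [Field Ω] [Algebra F Ω] {S : Set Ω}
    {x z : Ω} (hx : x ∈ acl F S) (hz : z ∈ acl F S) (p : MvPolynomial (Fin 2) F) :
    ev x z (map (algebraMap F Ω) p) ∈ acl F S := by
  induction p using MvPolynomial.induction_on with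
  | C a => simpa using claimA_acl_base a
  | add p q hp hq => rw [map_add, map_add]; exact (acl F S).add_mem hp hq
  | mul_X p i hp =>
    rw [map_mul, map_mul]
    refine (acl F S).mul_mem hp ?_
    rw [map_X, eval_X]
    fin_cases i
    · exact hx
    · exact hz

/-- The sections of a lift are algebraic over the point. -/
private lemma claimA_lift_acl {F Ω : Type*} [Field F] [Field Ω] [CharZero Ω] [Algebra F Ω]
    {S : Set Ω} {N n : ℕ} (hnN : n < N) (D : EDatum N n F) {x z : Ω} (hx : x ∈ acl F S)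
    (hz : z ∈ acl F S) (hxz : x ≠ 0 ∨ z ≠ 0) {q : LiftPt n Ω}
    (hq : IsLift (D.map (algebraMap F Ω)) x z q) (l : Fin n) (j : Fin 2) :
    q.s l j ∈ acl F S := by
  have h2 : (2 : Ω) ≠ 0 := two_ne_zero
  have h2S : (2 : Ω) ∈ acl F S := by
    have := claimA_acl_base (S := S) (2 : F)
    rwa [map_ofNat] at this
  have hN : 0 < N := by omega
  have hF : ev x z (D.map (algebraMap F Ω)).F ∈ acl F S := by
    have : (D.map (algebraMap F Ω)).F = map (algebraMap F Ω) D.F := by
      unfold EDatum.F
      rw [map_quar]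
      rfl
    rw [this]
    exact claimA_acl_ev hx hz _
  have hY : q.Y ∈ acl F S := by
    apply claimA_acl_pow (m := 2) (by norm_num)
    rw [hq.hY]; exact hF
  have hA : ev x z (D.map (algebraMap F Ω)).A ∈ acl F S := claimA_acl_ev hx hz _
  have hB : ev x z (D.map (algebraMap F Ω)).B ∈ acl F S := claimA_acl_ev hx hz _
  have hP : ev x z ((D.map (algebraMap F Ω)).P l j) ∈ acl F S := claimA_acl_ev hx hz _
  have hQ : ev x z ((D.map (algebraMap F Ω)).Q l j) ∈ acl F S := claimA_acl_ev hx hz _
  have hU : ev x z ((D.map (algebraMap F Ω)).U l j) ∈ acl F S := claimA_acl_ev hx hz _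
  have hV : ev x z ((D.map (algebraMap F Ω)).V l j) ∈ acl F S := claimA_acl_ev hx hz _
  have hα : q.α ∈ acl F S := by
    apply claimA_acl_pow hN
    apply claimA_acl_div h2 h2S
    rw [hq.hα]
    exact (acl F S).add_mem hA ((acl F S).mul_mem hB hY)
  have hβ : q.β ∈ acl F S := by
    apply claimA_acl_pow hN
    apply claimA_acl_div h2 h2S
    rw [hq.hβ]
    exact (acl F S).sub_mem hA ((acl F S).mul_mem hB hY)
  by_cases hα0 : q.α = 0
  · have hβ0 : q.β ≠ 0 := by
      intro hβ0
      have e1 := hq.hα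
      have e2 := hq.hβ
      have e3 := hq.hαβ
      rw [hα0, zero_pow hN.ne', mul_zero] at e1
      rw [hβ0, zero_pow hN.ne', mul_zero] at e2
      rw [hα0, zero_mul] at e3
      have hA0 : ev x z (D.map (algebraMap F Ω)).A = 0 := by
        have : 2 * ev x z (D.map (algebraMap F Ω)).A = 0 := by linear_combination -e1 - e2
        exact (mul_eq_zero.1 this).resolve_left h2
      rcases mul_eq_zero.1 e3.symm with h0 | h0
      · have hz0 : z ≠ 0 := hxz.resolve_left (not_not.2 h0)
        rw [h0] at hA0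
        have h4 := ev_scale (D.map (algebraMap F Ω)).hA z 0 1
        rw [mul_zero, mul_one, hA0] at h4
        have h5 := (D.map (algebraMap F Ω)).hA0
        rcases mul_eq_zero.1 h4.symm with h6 | h6
        · exact hz0 (pow_eq_zero_iff hN.ne' |>.1 h6)
        · rw [h6, mul_zero] at h5
          exact zero_ne_one h5
      · have hx0 : x ≠ 0 := hxz.resolve_right (not_not.2 h0)
        rw [h0] at hA0
        have h4 := ev_scale (D.map (algebraMap F Ω)).hA x 1 0
        rw [mul_zero, mul_one, hA0, (D.map (algebraMap F Ω)).hA1, mul_one] at h4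
        exact hx0 (pow_eq_zero_iff hN.ne' |>.1 h4.symm)
    apply claimA_acl_div (pow_ne_zero (l.val + 1) hβ0) ((acl F S).pow_mem hβ _)
    rw [hq.h1]
    exact (acl F S).add_mem hP ((acl F S).mul_mem hQ hY)
  · apply claimA_acl_div (pow_ne_zero (N - (l.val + 1)) hα0) ((acl F S).pow_mem hα _)
    apply claimA_acl_div h2 h2S
    rw [← mul_assoc, hq.h2]
    exact (acl F S).add_mem hV ((acl F S).mul_mem hU hY)

private lemma claimA_dist {Ω : Type} [Field Ω] {n : ℕ} {η : Ω} (hη : η ≠ 0)
    (hne : η ^ Nat.factorial n ≠ 1) {i j : ℕ} (hi : i ≤ n) (hj : j ≤ n) (h : η ^ i = η ^ j) :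
    i = j := by
  have key : ∀ i j : ℕ, j ≤ n → i < j → η ^ i ≠ η ^ j := by
    intro i j hj hij h
    have h1 : η ^ j = η ^ i * η ^ (j - i) := by
      rw [← pow_add]; congr 1; omega
    rw [h1] at h
    have h2 : η ^ (j - i) = 1 := by
      have h3 : η ^ i * η ^ (j - i) = η ^ i * 1 := by rw [mul_one]; exact h.symm
      exact mul_left_cancel₀ (pow_ne_zero i hη) h3
    obtain ⟨k, hk⟩ := Nat.dvd_factorial (show 0 < j - i by omega) (show j - i ≤ n by omega)
    apply hne
    rw [hk, pow_mul, h2, one_pow]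
  rcases lt_trichotomy i j with h1 | h1 | h1
  · exact absurd h (key i j hj h1)
  · exact h1
  · exact absurd h.symm (key j i hi h1)

/-- If the generic section takes a value in `E` then the product of the roots of unity by which an
automorphism over `E` acts on the lifts has order at most `n`. -/
theorem claimAG {F K₀ E Ω : Type} [Field F] [Field K₀] [IsAlgClosed K₀] [Field E] [Field Ω]
    [CharZero Ω] [Algebra F K₀] [Algebra F E] [Algebra F Ω] [Algebra K₀ E] [Algebra K₀ Ω]
    [Algebra E Ω] [IsScalarTower F K₀ E] [IsScalarTower F K₀ Ω] [IsScalarTower K₀ E Ω]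
    {n N : ℕ} (hN : 2 ≤ N) (hnN : n < N)
    (D : Fin n → EDatum N n F) (lam : F) (hlam : lam ≠ 0)
    (c : Fin n × (Fin n → Fin 2) → K₀) (hc : AlgebraicIndependent F c)
    (x z : Fin n → E) (hxz : ∀ i, z i = 1 ∨ (x i = 1 ∧ z i = 0))
    (hξ : ∃ i, Transcendental K₀ (x i)) (q : Fin n → LiftPt n Ω)
    (hq : ∀ i, IsLift ((D i).map (algebraMap F Ω)) (algebraMap E Ω (x i))
      (algebraMap F Ω lam * algebraMap E Ω (z i)) (q i))
    (hbpf : ∀ i l, ∃ j, (q i).s l j ≠ 0)
    (hw : Wsum (fun e => algebraMap K₀ Ω (c e)) q ∈ Set.range (algebraMap E Ω))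
    (σ : Ω ≃ₐ[E] Ω) (ζ : Fin n → Ω) (hζ : ∀ i, ζ i ^ N = 1)
    (hs : ∀ i l j, σ ((q i).s l j) = ζ i ^ (l.val + 1) * (q i).s l j) :
    (∏ i, ζ i) ^ Nat.factorial n = 1 := by
  classical
  by_contra hne
  have hN0 : 0 < N := by omega
  -- the automorphism fixes the constants and the roots of unity
  have hσK : ∀ a : K₀, σ (algebraMap K₀ Ω a) = algebraMap K₀ Ω a := by
    intro a
    rw [IsScalarTower.algebraMap_apply K₀ E Ω]
    exact σ.commutes _
  have hζK : ∀ i, σ (ζ i) = ζ i := by
    intro i
    have h1 : IsAlgebraic K₀ (ζ i) := by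
      apply IsAlgebraic.of_pow hN0
      rw [hζ i]
      exact isAlgebraic_one
    obtain ⟨b, hb⟩ := CurveDeg.mem_range_of_isAlgebraic h1
    rw [← hb]
    exact hσK b
  set ξ : Ω := ∏ i, ζ i with hξdef
  have hσξ : σ ξ = ξ := by
    rw [hξdef, map_prod]
    exact Finset.prod_congr rfl fun i _ => hζK i
  have hξN : ξ ^ N = 1 := by
    rw [hξdef, ← Finset.prod_pow]
    exact Finset.prod_eq_one fun i _ => hζ i
  have hξ0 : ξ ≠ 0 := by
    intro h
    rw [h, zero_pow hN0.ne'] at hξN
    exact zero_ne_one hξN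
  let T : Fin n → Ω := fun l => ∑ j : Fin n → Fin 2, algebraMap K₀ Ω (c (l, j)) *
    ∏ i, (q i).s l (j i)
  have hσT : ∀ l, σ (T l) = ξ ^ (l.val + 1) * T l := by
    intro l
    change σ (∑ j : Fin n → Fin 2, algebraMap K₀ Ω (c (l, j)) * ∏ i, (q i).s l (j i)) =
      ξ ^ (l.val + 1) * ∑ j : Fin n → Fin 2, algebraMap K₀ Ω (c (l, j)) * ∏ i, (q i).s l (j i)
    rw [map_sum, Finset.mul_sum]
    refine Finset.sum_congr rfl fun j _ => ?_
    rw [map_mul, hσK, map_prod]
    have : ∏ i, σ ((q i).s l (j i)) = ξ ^ (l.val + 1) * ∏ i, (q i).s l (j i) := by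
      rw [hξdef, ← Finset.prod_pow, ← Finset.prod_mul_distrib]
      exact Finset.prod_congr rfl fun i _ => hs i l (j i)
    rw [this]
    ring
  have hiter : ∀ (m : ℕ) (l : Fin n), (σ : Ω → Ω)^[m] (T l) = (ξ ^ (l.val + 1)) ^ m * T l := by
    intro m l
    induction m with
    | zero => simp
    | succ m ih =>
      rw [Function.iterate_succ_apply', ih, map_mul, map_pow, map_pow, hσξ, hσT]
      ring
  obtain ⟨w, hw⟩ := hw
  have hiterW : ∀ m : ℕ, (σ : Ω → Ω)^[m] (algebraMap E Ω w) = algebraMap E Ω w := by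
    intro m
    induction m with
    | zero => rfl
    | succ m ih => rw [Function.iterate_succ_apply', ih]; exact σ.commutes _
  have hitersum : ∀ (m : ℕ) (f : Fin n → Ω),
      (σ : Ω → Ω)^[m] (∑ l, f l) = ∑ l, (σ : Ω → Ω)^[m] (f l) := by
    intro m
    induction m with
    | zero => intro f; rfl
    | succ m ih =>
      intro f
      rw [Function.iterate_succ_apply', ih, map_sum]
      exact Finset.sum_congr rfl fun l _ => (Function.iterate_succ_apply' _ _ _).symm
  have hWT : Wsum (fun e => algebraMap K₀ Ω (c e)) q = ∑ l, T l := rfl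
  have hsum : ∀ m : ℕ, ∑ l : Fin n, (ξ ^ (l.val + 1)) ^ m * T l = algebraMap E Ω w := by
    intro m
    rw [← hiterW m, hw, hWT, hitersum]
    exact Finset.sum_congr rfl fun l _ => (hiter m l).symm
  have hpow : ∀ l : Fin n, ∀ l' : ℕ, l' ≤ n → ξ ^ (l.val + 1) = ξ ^ l' → l.val + 1 = l' := by
    intro l l' hl' h
    have hl := l.isLt
    exact claimA_dist hξ0 hne (by omega) hl' h
  have hT0 : ∀ l, T l = 0 := by
    intro l
    have h1 := CurveDeg.sum_fiber_eq_zero Finset.univ (fun l : Fin n => ξ ^ (l.val + 1)) T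
      (algebraMap E Ω w) hsum (ξ ^ (l.val + 1)) (by
        intro h
        have := hpow l 0 (Nat.zero_le _) (by rw [h, pow_zero])
        omega)
    have h2 : (Finset.univ.filter fun m : Fin n => ξ ^ (m.val + 1) = ξ ^ (l.val + 1)) = {l} := by
      ext m
      simp only [Finset.mem_filter, Finset.mem_univ, true_and, Finset.mem_singleton]
      constructor
      · intro h
        have hl := l.isLt
        have := hpow m (l.val + 1) (by omega) h
        exact Fin.ext (by omega)
      · rintro rfl; rfl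
    rw [h2, Finset.sum_singleton] at h1
    exact h1
  -- the counting argument
  obtain ⟨i₀, hi₀⟩ := hξ
  have hinj : Function.Injective (algebraMap E Ω) := (algebraMap E Ω).injective
  have htr : Transcendental K₀ (algebraMap E Ω (x i₀)) := by
    intro h
    exact hi₀ ((isAlgebraic_algebraMap_iff hinj).1 h)
  let Y : Finset Ω := Finset.univ.image fun i => algebraMap E Ω (x i)
  have hxY : ∀ i, algebraMap E Ω (x i) ∈ acl F (Y : Set Ω) := fun i =>
    claimA_acl_mem (by simp [Y])
  have hzY : ∀ i, algebraMap F Ω lam * algebraMap E Ω (z i) ∈ acl F (Y : Set Ω) := by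
    intro i
    refine (acl F (Y : Set Ω)).mul_mem (claimA_acl_base lam) ?_
    rcases hxz i with h | ⟨_, h⟩
    · rw [h, map_one]; exact (acl F (Y : Set Ω)).one_mem
    · rw [h, map_zero]; exact (acl F (Y : Set Ω)).zero_mem
  have hnz : ∀ i, algebraMap E Ω (x i) ≠ 0 ∨ algebraMap F Ω lam * algebraMap E Ω (z i) ≠ 0 := by
    intro i
    rcases hxz i with h | ⟨h, _⟩
    · right
      rw [h, map_one, mul_one]
      exact (map_ne_zero _).2 hlam
    · left
      rw [h, map_one]
      exact one_ne_zero
  have hsY : ∀ i l j, (q i).s l j ∈ acl F (Y : Set Ω) := fun i l j =>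
    claimA_lift_acl hnN (D i) (hxY i) (hzY i) (hnz i) (hq i) l j
  let Dm : Fin n → (Fin n × (Fin n → Fin 2)) → Ω := fun m e =>
    if e.1 = m then ∏ i, (q i).s m (e.2 i) else 0
  refine not_of_count (F := F) (K₀ := K₀) c hc (algebraMap E Ω (x i₀)) htr Y ?_ (hxY i₀) Dm ?_ ?_ ?_
  · exact Finset.card_image_le.trans (by simp)
  · rw [Fintype.linearIndependent_iff]
    intro g hg m
    choose j hj using fun i => hbpf i m
    have h1 := congrFun hg (m, j)
    simp only [Finset.sum_apply, Pi.smul_apply, smul_eq_mul, Pi.zero_apply] at h1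
    rw [Finset.sum_eq_single m] at h1
    · simp only [Dm, if_true] at h1
      refine (mul_eq_zero.1 h1).resolve_right ?_
      exact Finset.prod_ne_zero_iff.2 fun i _ => hj i
    · intro b _ hb
      have : Dm b (m, j) = 0 := if_neg (by simpa using hb.symm)
      rw [this, mul_zero]
    · intro h; exact absurd (Finset.mem_univ m) h
  · intro m e
    by_cases h : e.1 = m
    · have : Dm m e = ∏ i, (q i).s m (e.2 i) := if_pos h
      rw [this]
      exact (acl F (Y : Set Ω)).prod_mem fun i _ => hsY i m (e.2 i)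
    · have : Dm m e = 0 := if_neg h
      rw [this]
      exact (acl F (Y : Set Ω)).zero_mem
  · intro m
    rw [Fintype.sum_prod_type, Finset.sum_eq_single m]
    · rw [← hT0 m]
      refine Finset.sum_congr rfl fun j _ => ?_
      simp only [Dm, if_true]
      ring
    · intro b _ hb
      refine Finset.sum_eq_zero fun j _ => ?_
      have : Dm m (b, j) = 0 := if_neg hb
      rw [this, zero_mul]
    · intro h; exact absurd (Finset.mem_univ m) h

end Pool.Agent.MultiAll
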