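import Pool.Agent.MultiSpec.AsExt
import Pool.Agent.DensDeg.DegStep
import Pool.Agent.MultiAll.ClaimAG
import Pool.Agent.MultiAll.ClaimKG
import Pool.Agent.MultiAll.RootG

/-!
The extension `E₁` of the function field of a curve on the special complete intersection, for all
primes.
-/

set_option autoImplicit false

namespace Pool.Agent.MultiAll

open IntermediateField Pool.Agent.MultiSpec Pool.Agent.DensDeg

/-- **The extension.** -/
theorem exists_extG {k0 R0 F K₀ κ E : Type} [Field k0] [CharZero k0] [CommRing R0] [IsDomain R0]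
    [Algebra k0 R0] [Field F] [Algebra R0 F] (hRF : Function.Injective (algebraMap R0 F))
    [Field K₀] [IsAlgClosed K₀] [Algebra F K₀] [Field κ] [IsAlgClosed κ] [CharZero κ]
    [Algebra K₀ κ] [Field E] [Algebra κ E] [Algebra F E] [Algebra K₀ E] [IsScalarTower F K₀ E]
    [IsScalarTower K₀ κ E] {p n r : ℕ} (hp : p.Prime)
    (a : Fin r → ℕ) (N : Fin r → ℕ) (hN : ∀ i, a i ≠ 0 → N i = p ^ a i)
    (hN' : ∀ i, 2 < N i ∧ n < N i) (D : ∀ i : Fin r, Fin n → EDatum (N i) n R0)
    (ζ : Fin r → k0) (hζ : ∀ i, IsPrimitiveRoot (ζ i) (N i)) (m : Ideal R0) [m.IsPrime]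
    (hm : ∀ i j, IsSpecial ((D i j).map (Ideal.Quotient.mk m)) (algebraMap k0 (R0 ⧸ m) (ζ i)))
    (hP : ∀ s : Fin r → Fin n, ∃ (P : Ideal R0) (_ : P.IsPrime), P ≤ m ∧
        (∀ i j, j ≠ s i →
          IsSpecial ((D i j).map (Ideal.Quotient.mk P)) (algebraMap k0 (R0 ⧸ P) (ζ i))) ∧
        ∀ i, (D i (s i)).t ∉ P)
    (cA : Fin n × (Fin n → Fin 2) → K₀) (hcA : AlgebraicIndependent F cA)
    (cK : ∀ i : Fin r, {e : Fin (n + 1) →₀ ℕ // e.degree = N i} → K₀)
    (hcK : ∀ i, AlgebraicIndependent F (cK i)) (hone : CurveDeg.OneVar κ E)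
    (u : Fin (n + 1) → E) (hu : u ≠ 0) (w : Fin r → E)
    (hblock : ∀ i, a i ≠ 0 →
      PropA (fun j => (D i j).map ((algebraMap F (AlgebraicClosure E)).comp (algebraMap R0 F)))
        (((i : ℕ) + 1 : ℕ) : AlgebraicClosure E)
        (fun e => algebraMap K₀ (AlgebraicClosure E) (cA e))
        (fun j => algebraMap E (AlgebraicClosure E) (u j)) (algebraMap E _ (w i)) ∨
      PropK (((i : ℕ) + 1 : ℕ) : AlgebraicClosure E)
        (fun e => algebraMap K₀ (AlgebraicClosure E) (cK i e))
        (fun j => algebraMap E (AlgebraicClosure E) (u j)) (algebraMap E _ (w i))) :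
    ∃ (E₁ : Type) (_ : Field E₁) (_ : Algebra κ E₁) (_ : Algebra E E₁)
      (_ : IsScalarTower κ E E₁) (_ : FiniteDimensional E E₁),
      Module.finrank E E₁ ∣ Nat.factorial (max n 2) ^ (n + r * n) ∧
      ∃ (Xr Zr : Fin n → E₁) (Λ : E₁),
        (∀ c : κ, ∑ j, algebraMap E E₁ (u j) * algebraMap κ E₁ c ^ (j : ℕ) =
          Λ * ∏ i, (Zr i * algebraMap κ E₁ c - Xr i)) ∧
        ∀ i, Zr i ≠ 0 → Transcendental κ (Xr i / Zr i) →
          p ^ (∑ i, a i) ∣ (2 ^ r * Nat.factorial n ^ 2) ^ r *
            Module.finrank κ⟮Xr i / Zr i⟯ E₁ := by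
  classical
  have hcharE : CharZero E := charZero_of_injective_algebraMap (algebraMap κ E).injective
  set Ω := AlgebraicClosure E with hΩdef
  have hcharΩ : CharZero Ω := charZero_of_injective_algebraMap (algebraMap E Ω).injective
  have huΩ : (fun j => algebraMap E Ω (u j)) ≠ 0 := by
    intro h0
    apply hu
    funext j
    exact (algebraMap E Ω).injective (by rw [congrFun h0 j]; simp)
  obtain ⟨Λ₀, X, Z, hΛ₀, hXZ, hfac⟩ := exists_factor (fun j => algebraMap E Ω (u j)) huΩ
  have hXZ' : ∀ i, X i ≠ 0 ∨ Z i ≠ 0 := by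
    intro i
    rcases hXZ i with h | ⟨h, _⟩
    · right; rw [h]; exact one_ne_zero
    · left; rw [h]; exact one_ne_zero
  have hdata := fun i : Fin r => exists_normal_data (by have := hN' i; omega : 2 ≤ N i)
    (by have := hN' i; omega : n < N i)
    (fun j => (D i j).map ((algebraMap F Ω).comp (algebraMap R0 F)))
    (((i : ℕ) + 1 : ℕ) : Ω) (fun e => algebraMap K₀ Ω (cA e)) (fun e => algebraMap K₀ Ω (cK i e))
    (fun j => algebraMap E Ω (u j)) (algebraMap E Ω (w i)) Λ₀ X Z hΛ₀ hXZ hfac (a i ≠ 0)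
    (hblock i)
  choose ty π q s t v hA hK using hdata
  -- the field `E₁`
  let SX : Finset Ω := Finset.univ.image X
  let SY : Finset Ω := Finset.univ.image fun ij : Fin r × Fin n =>
    if ty ij.1 = true then (q ij.1 ij.2).Y else 0
  have hSX : ∀ x ∈ SX, ∃ f : Polynomial E, f ≠ 0 ∧ f.natDegree ≤ max n 2 ∧
      Polynomial.aeval x f = 0 := by
    intro x hx
    obtain ⟨i, -, rfl⟩ := Finset.mem_image.1 hx
    obtain ⟨f, h1, h2, h3⟩ := exists_poly_root (p := max n 2 + 1)
      (Nat.lt_succ_of_le (le_max_left n 2)) (by omega) u hu Λ₀ X Z hXZ hfac i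
    exact ⟨f, h1, Nat.lt_succ_iff.1 h2, h3⟩
  have hFmap : ∀ (L : Type) [Field L] [Algebra F L] (i : Fin r) (j : Fin n),
      ((D i j).map ((algebraMap F L).comp (algebraMap R0 F))).F =
        MvPolynomial.map ((algebraMap F L).comp (algebraMap R0 F)) (D i j).F :=
    fun L _ _ i j => (map_quar _ _ _ _).symm
  have hSY : ∀ y ∈ SY, Small (max n 2) (adjoin E (SX : Set Ω)) y := by
    intro y hy
    obtain ⟨⟨i, j⟩, -, rfl⟩ := Finset.mem_image.1 hy
    dsimp only
    by_cases hty : ty i = true
    · rw [if_pos hty]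
      set K₁ := adjoin E (SX : Set Ω) with hK₁
      have hX₁ : X (π i j) ∈ K₁ := subset_adjoin _ _
        (Finset.mem_coe.2 (Finset.mem_image_of_mem X (Finset.mem_univ _)))
      have hZ₁ : Z (π i j) ∈ K₁ := by
        rcases hXZ (π i j) with h | ⟨_, h⟩
        · rw [h]; exact one_mem _
        · rw [h]; exact zero_mem _
      set P₁ : MvPolynomial (Fin 2) K₁ :=
        MvPolynomial.map ((algebraMap F K₁).comp (algebraMap R0 F)) (D i j).F with hP₁
      set e₁ : K₁ := ev (⟨X (π i j), hX₁⟩ : K₁) ((((i : ℕ) + 1 : ℕ) : K₁) * ⟨Z (π i j), hZ₁⟩) P₁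
        with he₁
      have hY := ((hA i hty).2.1 j).hY
      rw [hFmap Ω] at hY
      have h2 : algebraMap K₁ Ω e₁ = (q i j).Y ^ 2 := by
        rw [hY, he₁, ← ev_map, hP₁, MvPolynomial.map_map, map_mul, map_natCast]
        rfl
      refine ⟨Polynomial.X ^ 2 - Polynomial.C e₁, Polynomial.X_pow_sub_C_ne_zero (by norm_num) _,
        ?_, ?_⟩
      · rw [Polynomial.natDegree_X_pow_sub_C]; exact le_max_right _ _
      · rw [map_sub, map_pow, Polynomial.aeval_X, Polynomial.aeval_C, h2, sub_self]
    · rw [if_neg hty]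
      exact ⟨Polynomial.X, Polynomial.X_ne_zero, by rw [Polynomial.natDegree_X]; omega,
        by rw [Polynomial.aeval_X]⟩
  obtain ⟨hfd0, hdv0⟩ := finrank_adjoin_dvd (max n 2) SX hSX
  obtain ⟨hfd, hdv⟩ := finrank_sup_dvd (max n 2) (adjoin E (SX : Set Ω)) SY hSY
  rw [← adjoin_union] at hfd hdv
  set E₁ := adjoin E ((SX : Set Ω) ∪ SY) with hE₁
  have hdeg : Module.finrank E E₁ ∣ Nat.factorial (max n 2) ^ (n + r * n) := by
    refine hdv.trans ?_
    rw [pow_add]
    refine mul_dvd_mul (hdv0.trans (pow_dvd_pow _ ?_)) (pow_dvd_pow _ ?_)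
    · exact Finset.card_image_le.trans (by simp)
    · exact Finset.card_image_le.trans (by simp)
  have hXm : ∀ i, X i ∈ E₁ := fun i => subset_adjoin _ _
    (Or.inl (Finset.mem_coe.2 (Finset.mem_image_of_mem X (Finset.mem_univ _))))
  have hZm : ∀ i, Z i ∈ E₁ := by
    intro i
    rcases hXZ i with h | ⟨_, h⟩
    · rw [h]; exact one_mem _
    · rw [h]; exact zero_mem _
  have hYm : ∀ i j, ty i = true → (q i j).Y ∈ E₁ := by
    intro i j hty
    refine subset_adjoin _ _ (Or.inr (Finset.mem_coe.2 ?_))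
    have h1 : (if ty i = true then (q i j).Y else 0) = (q i j).Y := if_pos hty
    rw [← h1]
    exact Finset.mem_image_of_mem (fun ij : Fin r × Fin n =>
      if ty ij.1 = true then (q ij.1 ij.2).Y else 0) (Finset.mem_univ (i, j))
  have hκE : IsScalarTower κ E₁ Ω := IsScalarTower.of_algebraMap_eq fun _ => rfl
  have hκinf : Infinite κ := inferInstance
  obtain ⟨c₁, hc₁⟩ := exists_ne_zero_of_infinite (κ := κ) X Z hXZ'
  have hΛm : Λ₀ ∈ E₁ := by
    have h1 := hfac (algebraMap κ Ω c₁) 1
    have h2 : ∏ i, (Z i * algebraMap κ Ω c₁ - X i * 1) ≠ 0 := by simpa using hc₁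
    rw [← div_eq_iff h2] at h1
    rw [← h1]
    refine div_mem (sum_mem fun j _ => ?_) (prod_mem fun j _ => ?_)
    · refine mul_mem (mul_mem (IntermediateField.algebraMap_mem _ _) (pow_mem ?_ _))
        (pow_mem (one_mem _) _)
      rw [IsScalarTower.algebraMap_apply κ E Ω]
      exact IntermediateField.algebraMap_mem _ _
    · refine sub_mem (mul_mem (hZm _) ?_) (mul_mem (hXm _) (one_mem _))
      rw [IsScalarTower.algebraMap_apply κ E Ω]
      exact IntermediateField.algebraMap_mem _ _
  let X₁ : Fin n → E₁ := fun i => ⟨X i, hXm i⟩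
  let Z₁ : Fin n → E₁ := fun i => ⟨Z i, hZm i⟩
  let Λ₁ : E₁ := ⟨Λ₀, hΛm⟩
  refine ⟨E₁, inferInstance, inferInstance, inferInstance, inferInstance, hfd,
    hdeg, X₁, Z₁, Λ₁, ?_, ?_⟩
  · intro c
    apply (algebraMap E₁ Ω).injective
    have h1 := hfac (algebraMap κ Ω c) 1
    simp only [map_sum, map_mul, map_prod, map_sub, map_pow]
    simp only [one_pow, mul_one] at h1
    exact h1
  · intro j hZj htr
    have hZ1 : Z j = 1 := by
      rcases hXZ j with h | ⟨_, h⟩
      · exact h
      · exact absurd (Subtype.ext h) hZj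
    have hZ1' : Z₁ j = 1 := Subtype.ext hZ1
    have hξ : X₁ j / Z₁ j = X₁ j := by rw [hZ1', div_one]
    rw [hξ] at htr ⊢
    set ξ : E₁ := X₁ j with hξdef
    -- instances
    have i1 : IsScalarTower F K₀ E₁ := IsScalarTower.of_algebraMap_eq fun b => by
      apply Subtype.ext
      change algebraMap F Ω b = algebraMap K₀ Ω (algebraMap F K₀ b)
      exact IsScalarTower.algebraMap_apply F K₀ Ω b
    have i2 : IsScalarTower K₀ E₁ Ω := IsScalarTower.of_algebraMap_eq fun _ => rfl
    have i3 : IsScalarTower K₀ κ E₁ := IsScalarTower.of_algebraMap_eq fun b => by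
      apply Subtype.ext
      change algebraMap K₀ Ω b = algebraMap κ Ω (algebraMap K₀ κ b)
      exact IsScalarTower.algebraMap_apply K₀ κ Ω b
    have i4 : IsScalarTower F K₀ Ω := inferInstance
    have i5 : IsGalois E₁ Ω := inferInstance
    have hfin : FiniteDimensional κ⟮ξ⟯ E₁ := hone.ext.finite htr
    have htr₀ : Transcendental K₀ ξ := by
      intro h
      exact htr (h.extendScalars (algebraMap K₀ κ).injective)
    let φ : R0 →+* κ := (algebraMap K₀ κ).comp ((algebraMap F K₀).comp (algebraMap R0 F))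
    have hφ : Function.Injective φ :=
      (algebraMap K₀ κ).injective.comp ((algebraMap F K₀).injective.comp hRF)
    have hφΩ : (algebraMap E₁ Ω).comp ((algebraMap κ E₁).comp φ) =
        (algebraMap F Ω).comp (algebraMap R0 F) := by
      ext b
      change algebraMap κ Ω (algebraMap K₀ κ (algebraMap F K₀ (algebraMap R0 F b))) = _
      rw [← IsScalarTower.algebraMap_apply K₀ κ Ω, ← IsScalarTower.algebraMap_apply F K₀ Ω]
      rfl
    have hwr : ∀ i : Fin r, ∀ V : Ω, algebraMap E Ω (w i) = Λ₀ * V →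
        V ∈ Set.range (algebraMap E₁ Ω) := by
      intro i V hV
      have h1 : V = algebraMap E Ω (w i) / Λ₀ := by
        rw [hV, mul_comm, mul_div_assoc, div_self hΛ₀, mul_one]
      rw [h1]
      exact ⟨⟨_, div_mem (IntermediateField.algebraMap_mem _ (w i)) hΛm⟩, rfl⟩
    -- the slots
    let slot : Fin r → Fin n := fun i => (π i).symm j
    have hslot : ∀ i, π i (slot i) = j := fun i => (π i).apply_symm_apply j
    obtain ⟨P, hPp, hPm, hPs, hPt⟩ := hP slot
    -- the radicals of type K
    have hs₁ : ∀ i : Fin r, ∃ s₁ : E₁, ty i = false →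
        s₁ ^ (p ^ a i) = (ξ - (((i : ℕ) + 1 : ℕ) : E₁)) ^ (Nat.factorial n ^ 2) := by
      intro i
      by_cases ha : a i = 0
      · exact ⟨(ξ - (((i : ℕ) + 1 : ℕ) : E₁)) ^ (Nat.factorial n ^ 2),
          fun _ => by rw [ha, pow_zero, pow_one]⟩
      · by_cases hty : ty i = false
        · obtain ⟨h1, h2, h3⟩ := hK i hty ha
          have h4 : t i (slot i) = 1 ∧ Z (π i (slot i)) = 1 ∧
              s i (slot i) ^ N i = X (π i (slot i)) - (((i : ℕ) + 1 : ℕ) : Ω) := by
            rcases h1 (slot i) with h | ⟨_, _, h⟩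
            · exact h
            · rw [hslot, hZ1] at h
              exact absurd h one_ne_zero
          have hsE : ∀ l, s i l ^ N i ∈ Set.range (algebraMap E₁ Ω) := by
            intro l
            rcases h1 l with ⟨_, _, h⟩ | ⟨_, h, _⟩
            · rw [h]
              exact ⟨X₁ (π i l) - (((i : ℕ) + 1 : ℕ) : E₁), by rw [map_sub, map_natCast]; rfl⟩
            · rw [h, one_pow]
              exact ⟨1, map_one _⟩
          have htrs : Transcendental K₀ (s i (slot i)) := by
            intro hs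
            apply htr₀
            have h5 : IsAlgebraic K₀ (X (π i (slot i))) := by
              have h6 : X (π i (slot i)) = s i (slot i) ^ N i + (((i : ℕ) + 1 : ℕ) : Ω) := by
                rw [h4.2.2]; ring
              rw [h6]
              exact (hs.pow _).add (isAlgebraic_natCast _)
            rw [hslot] at h5
            exact (isAlgebraic_algebraMap_iff (algebraMap E₁ Ω).injective).1 h5
          have hmem := claimKG (F := F) (K₀ := K₀) (E := E₁) (Ω := Ω) hp (hN i ha)
            (by have := hN' i; omega) (cK i) (hcK i) (s i) (t i)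
            (fun l => by
              rcases h1 l with h | h
              · exact Or.inl h.1
              · exact Or.inr ⟨h.1, h.2.1⟩) hsE ⟨slot i, htrs⟩ (v i) h2 (hwr i _ h3) (slot i)
          obtain ⟨s₁, hs₁⟩ := hmem
          refine ⟨s₁, fun _ => ?_⟩
          apply (algebraMap E₁ Ω).injective
          rw [map_pow, hs₁, ← pow_mul, mul_comm, pow_mul, ← hN i ha, h4.2.2, hslot, map_pow,
            map_sub, map_natCast]
          rfl
        · exact ⟨0, fun h => absurd h hty⟩
    choose s₁ hs₁ using hs₁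
    refine dvd_rootG (k₀ := k0) (R₀ := R0) (κ := κ) (E := E₁) (Ω := Ω) (g := Nat.factorial n ^ 2)
      φ hφ hp a ty N ?_ (fun i _ => hN' i) D ζ (fun i _ => hζ i) m P hPm hm slot hPs hPt (fun i => (i : ℕ) + 1)
      (fun i => Nat.succ_ne_zero _) ?_ ξ htr hfin (fun i l => X₁ (π i l)) (fun i l => Z₁ (π i l))
      q ?_ s₁ ?_
    · intro i hty
      have ha := (hA i hty).1
      exact ⟨hN i ha, ha⟩
    · intro i i' h
      exact Fin.ext (Nat.succ_injective h)
    · intro i hty
      obtain ⟨ha, hq, hw⟩ := hA i hty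
      have hq' : ∀ l, IsLift ((D i l).map ((algebraMap E₁ Ω).comp ((algebraMap κ E₁).comp φ)))
          (algebraMap E₁ Ω (X₁ (π i l))) ((((i : ℕ) + 1 : ℕ) : Ω) * algebraMap E₁ Ω (Z₁ (π i l)))
          (q i l) := by
        intro l
        rw [hφΩ]
        exact hq l
      refine ⟨fun l => ?_, hq', fun l => ⟨⟨_, hYm i l hty⟩, rfl⟩, ?_, ?_, ?_⟩
      · rcases hXZ' (π i l) with h | h
        · exact Or.inl fun h0 => h (congrArg Subtype.val h0)
        · exact Or.inr fun h0 => h (congrArg Subtype.val h0)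
      · rw [hslot, hZ1']
        exact one_ne_zero
      · rw [hslot, hZ1', mul_one]
      · intro σ ω hω hα hβ hs
        rw [pow_two, pow_mul]
        refine (congrArg (fun w => w ^ Nat.factorial n) ?_).trans (one_pow _)
        refine claimAG (F := F) (K₀ := K₀) (E := E₁) (Ω := Ω) (by have := hN' i; omega)
          (by have := hN' i; omega) (fun l => (D i l).map (algebraMap R0 F))
          (((i : ℕ) + 1 : ℕ) : F) ?_ cA hcA (fun l => X₁ (π i l)) (fun l => Z₁ (π i l)) ?_
          ⟨slot i, ?_⟩ (q i) ?_ ?_ (hwr i _ hw) σ ω hω (fun l l' j' => hs l l' j')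
        · have hcharF : CharZero F := by
            have := (algebraMap F E).injective
            exact ⟨fun a b hab => by
              have h1 : (algebraMap F E) (a : F) = (algebraMap F E) (b : F) := congrArg _ hab
              rw [map_natCast, map_natCast] at h1
              exact_mod_cast h1⟩
          exact Nat.cast_ne_zero.2 (Nat.succ_ne_zero _)
        · intro l
          rcases hXZ (π i l) with h | ⟨h1, h2⟩
          · exact Or.inl (Subtype.ext h)
          · exact Or.inr ⟨Subtype.ext h1, Subtype.ext h2⟩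
        · rw [hslot]
          exact htr₀
        · intro l
          rw [EDatum.map_map, map_natCast]
          exact hq l
        · intro l l'
          refine bpf (k := k0) (R := R0) ((algebraMap F Ω).comp (algebraMap R0 F)) ?_
            (by have := hN' i; omega) (by have := hN' i; omega) (D i l) (ζ i) (hζ i).pow_eq_one
            ((hζ i).ne_one (by have := hN' i; omega)) m (hm i l) ?_ (hq l) l'
          · exact (algebraMap F Ω).injective.comp hRF
          · rcases hXZ' (π i l) with h | h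
            · exact Or.inl h
            · exact Or.inr (mul_ne_zero (Nat.cast_ne_zero.2 (Nat.succ_ne_zero _)) h)
    · intro i hty
      exact hs₁ i hty

end Pool.Agent.MultiAll
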