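import Pool.Agent.MultiAll.ExtG
import Pool.Agent.MultiAll.SlopeG
import Pool.Agent.MultiSpec.AsForms
import Pool.Agent.DensDeg.TMain

/-!
The special forms, for all primes.
-/

set_option autoImplicit false

namespace Pool.Agent.MultiAll

open MvPolynomial Pool.Agent.CurveDeg Pool.Agent.MultiSpec Pool.Agent.DensDeg

/-- Frobenius coins. -/
theorem exists_coinsG {p n a d : ℕ} (hp : p.Prime) (hn : 0 < n)
    (hd : p ^ a ∣ d) (hle : 2 ^ n * Nat.factorial n * (p ^ a) ^ n ≤ d) :
    ∃ s t : ℕ, d = s * (Nat.factorial n * 2 ^ n * p ^ (a - (2 ^ n * Nat.factorial n).factorization p))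
      + t * (p ^ (a - (2 ^ n * Nat.factorial n).factorization p)) ^ n := by
  set B := 2 ^ n * Nat.factorial n with hB
  have hB0 : B ≠ 0 := Nat.mul_ne_zero (by positivity) (Nat.factorial_ne_zero n)
  set v := B.factorization p with hv
  set b := a - v with hb
  obtain ⟨n', rfl⟩ : ∃ n', n = n' + 1 := ⟨n - 1, by omega⟩
  have hpos : 0 < p ^ b := pow_pos hp.pos _
  have hba : b ≤ a := Nat.sub_le _ _
  obtain ⟨m, hm⟩ : p ^ b ∣ d := (pow_dvd_pow p hba).trans hd
  have hgcd : Nat.gcd B ((p ^ b) ^ n') ∣ m := by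
    rcases Nat.eq_zero_or_pos b with h0 | h0
    · rw [h0, pow_zero, one_pow, Nat.gcd_one_right]; exact one_dvd _
    · have h1 : Nat.gcd B ((p ^ b) ^ n') ∣ p ^ v := by
        have h2 : Nat.gcd B ((p ^ b) ^ n') ∣ p ^ (b * n') := by
          rw [pow_mul]; exact Nat.gcd_dvd_right _ _
        obtain ⟨j, _, hj⟩ := (Nat.dvd_prime_pow hp).1 h2
        rw [hj]
        refine pow_dvd_pow p ?_
        refine (hp.pow_dvd_iff_le_factorization hB0).1 ?_
        rw [← hj]
        exact Nat.gcd_dvd_left _ _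
      refine h1.trans ?_
      have h3 : p ^ b * p ^ v ∣ p ^ b * m := by
        rw [← hm, ← pow_add]
        have : b + v = a := by omega
        rw [this]
        exact hd
      exact Nat.dvd_of_mul_dvd_mul_left hpos h3
  have hm2 : B * (p ^ b) ^ n' ≤ m := by
    have h1 : p ^ b * (B * (p ^ b) ^ n') ≤ p ^ b * m := by
      rw [← hm]
      refine le_trans (le_of_eq ?_) ((Nat.mul_le_mul_left B
        (Nat.pow_le_pow_left (Nat.pow_le_pow_right hp.pos hba) (n' + 1))).trans hle)
      ring
    exact Nat.le_of_mul_le_mul_left h1 hpos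
  obtain ⟨s, t, hst⟩ := Nat.exists_add_mul_eq_of_gcd_dvd_of_mul_pred_le
    B ((p ^ b) ^ n') m hgcd ((Nat.mul_le_mul (Nat.pred_le _) (Nat.pred_le _)).trans hm2)
  refine ⟨s, t, ?_⟩
  rw [hm, ← hst, hB]
  ring

/-- From forms over an algebraically closed field with the block properties. -/
theorem hasSpecial_of_blocksG {k0 R0 F K₀ : Type} [Field k0] [CharZero k0] [CommRing R0]
    [IsDomain R0] [Algebra k0 R0] [Field F] [Algebra R0 F]
    (hRF : Function.Injective (algebraMap R0 F)) [Field K₀] [IsAlgClosed K₀] [CharZero K₀]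
    [Countable K₀] [Algebra F K₀] {p n r : ℕ} (hp : p.Prime) (hn : 0 < n)
    (a : Fin r → ℕ) (d : Fin r → ℕ)
    (hcoin : ∀ i, ∃ s t : ℕ, a i ≠ 0 →
      d i = s * (Nat.factorial n * 2 ^ n * p ^ a i) + t * (p ^ a i) ^ n)
    (N : Fin r → ℕ) (hN : ∀ i, a i ≠ 0 → N i = p ^ a i)
    (hN' : ∀ i, 2 < N i ∧ n < N i) (D : ∀ i : Fin r, Fin n → EDatum (N i) n R0)
    (ζ : Fin r → k0) (hζ : ∀ i, IsPrimitiveRoot (ζ i) (N i)) (m : Ideal R0) [m.IsPrime]
    (hm : ∀ i j, IsSpecial ((D i j).map (Ideal.Quotient.mk m)) (algebraMap k0 (R0 ⧸ m) (ζ i)))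
    (hP : ∀ s : Fin r → Fin n, ∃ (P : Ideal R0) (_ : P.IsPrime), P ≤ m ∧
        (∀ i j, j ≠ s i →
          IsSpecial ((D i j).map (Ideal.Quotient.mk P)) (algebraMap k0 (R0 ⧸ P) (ζ i))) ∧
        ∀ i, (D i (s i)).t ∉ P)
    (cA : Fin n × (Fin n → Fin 2) → K₀) (hcA : AlgebraicIndependent F cA)
    (cK : ∀ i : Fin r, {e : Fin (n + 1) →₀ ℕ // e.degree = N i} → K₀)
    (hcK : ∀ i, AlgebraicIndependent F (cK i)) : HasSpecial n r d
      ((p ^ ∑ i, a i) / Nat.gcd (p ^ ∑ i, a i) ((2 ^ r * Nat.factorial n ^ 2) ^ r *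
        Nat.factorial (max n 2) ^ (n + r * n))) := by
  classical
  have hA := fun i : Fin r => blockA K₀ hn (by have := hN' i; omega : 2 ≤ N i)
    (by have := hN' i; omega : n < N i)
    (fun j => (D i j).map ((algebraMap F K₀).comp (algebraMap R0 F)))
    (((i : ℕ) + 1 : ℕ) : K₀) (Nat.cast_ne_zero.2 (Nat.succ_ne_zero _)) cA
  have hK := fun i : Fin r => blockK K₀ hn (by have := hN' i; omega : 0 < N i)
    (((i : ℕ) + 1 : ℕ) : K₀) (cK i)
  choose GA hGA1 hGA2 hGA3 using hA
  choose GK hGK1 hGK2 hGK3 using hK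
  choose s t hst using hcoin
  let g : Fin r → MvPolynomial (Fin (n + r + 1)) K₀ := fun i =>
    if a i = 0 then X (ww n r i) ^ d i else rename (emb i) (GA i ^ s i * GK i ^ t i)
  have hg1 : ∀ i, a i = 0 → g i = X (ww n r i) ^ d i := fun i h => if_pos h
  have hg2 : ∀ i, a i ≠ 0 → g i = rename (emb i) (GA i ^ s i * GK i ^ t i) := fun i h => if_neg h
  have hghom : ∀ i, g i ∈ homogeneousSubmodule (Fin (n + r + 1)) K₀ (d i) := by
    intro i
    by_cases ha : a i = 0
    · rw [hg1 i ha]
      have := (isHomogeneous_X K₀ (ww n r i)).pow (d i)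
      rw [one_mul] at this
      exact this
    · rw [hg2 i ha, mem_homogeneousSubmodule]
      refine IsHomogeneous.rename_isHomogeneous ?_
      have h1 := ((hGA1 i).pow (s i)).mul ((hGK1 i).pow (t i))
      have h2 : d i = Nat.factorial n * 2 ^ n * N i * s i + N i ^ n * t i := by
        rw [hst i ha, hN i ha]; ring
      rw [h2]
      exact h1
  refine ⟨K₀, inferInstance, inferInstance, inferInstance, g, hghom, ?_⟩
  intro κ _ _ _ _ P hP' hPp hgP e he
  refine dvd_of_mul (pow_pos hp.pos _) ?_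
  refine dvd_slope_of_rootsG (uu n r) P hP' hPp ?_ (p ^ ∑ i, a i) _ _ ?_ e he
  · intro Q hQ hQp hPQ hu i
    rcases uw_cases i with ⟨j, rfl⟩ | ⟨j, rfl⟩
    · exact hu j
    by_cases ha : a j = 0
    · have h1 := hPQ (hgP j)
      rw [hg1 j ha, map_pow, map_X] at h1
      exact hQp.mem_of_pow_mem _ h1
    · let B := MvPolynomial (Fin (n + r + 1)) κ ⧸ Q
      let L := FractionRing B
      have htow : IsScalarTower K₀ κ L := inferInstance
      let xL : Fin (n + r + 1) → L := fun i => algebraMap B L (Ideal.Quotient.mk Q (X i))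
      have hxL : ∀ f : MvPolynomial (Fin (n + r + 1)) κ, aeval xL f =
          algebraMap B L (Ideal.Quotient.mk Q f) := by
        intro f
        have h1 : (aeval xL : MvPolynomial (Fin (n + r + 1)) κ →ₐ[κ] L) =
            (IsScalarTower.toAlgHom κ B L).comp (Ideal.Quotient.mkₐ κ Q) := by
          apply MvPolynomial.algHom_ext
          intro i
          rw [aeval_X]
          rfl
        rw [h1]
        rfl
      have h0 : aeval xL (g j) = 0 := by
        rw [← aeval_map_algebraMap κ xL (g j), hxL, Ideal.Quotient.eq_zero_iff_mem.2 (hPQ (hgP j)),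
          map_zero]
      have hu0 : ∀ l, xL (uu n r l) = 0 := by
        intro l
        change algebraMap B L (Ideal.Quotient.mk Q (X _)) = 0
        rw [Ideal.Quotient.eq_zero_iff_mem.2 (hu l), map_zero]
      rw [hg2 j ha, aeval_rename_emb, map_mul, map_pow, map_pow] at h0
      have hfun : (fun o : Option (Fin (n + 1)) => o.elim (xL (ww n r j)) fun l => xL (uu n r l)) =
          fun o : Option (Fin (n + 1)) => o.elim (xL (ww n r j)) fun _ => 0 := by
        funext o
        cases o
        · rfl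
        · exact hu0 _
      rw [hfun] at h0
      have hw0 : xL (ww n r j) = 0 := by
        rcases mul_eq_zero.1 h0 with h | h
        · exact hGA2 j L _ (eq_zero_of_pow_eq_zero' h)
        · exact hGK2 j L _ (eq_zero_of_pow_eq_zero' h)
      have h2 : Ideal.Quotient.mk Q (X (ww n r j)) = 0 :=
        (IsFractionRing.injective B L) (by rw [map_zero]; exact hw0)
      exact Ideal.Quotient.eq_zero_iff_mem.1 h2
  · intro E _ _ x hone hx
    by_cases hall : ∀ j, x (uu n r j) = 0
    · refine ⟨E, inferInstance, inferInstance, inferInstance, inferInstance, inferInstance, ?_,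
        0, 0, 0, fun c => ?_, fun i h => absurd rfl h⟩
      · rw [Module.finrank_self]; exact one_dvd _
      · rw [zero_mul]
        refine Finset.sum_eq_zero fun j _ => ?_
        rw [hall j, map_zero, zero_mul]
    · let _ : Algebra K₀ E := ((algebraMap κ E).comp (algebraMap K₀ κ)).toAlgebra
      let _ : Algebra F E := ((algebraMap K₀ E).comp (algebraMap F K₀)).toAlgebra
      have htow : IsScalarTower K₀ κ E := IsScalarTower.of_algebraMap_eq fun _ => rfl
      have htow2 : IsScalarTower F K₀ E := IsScalarTower.of_algebraMap_eq fun _ => rfl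
      have hcharE : CharZero E := charZero_of_injective_algebraMap (algebraMap κ E).injective
      refine exists_extG (k0 := k0) (R0 := R0) (F := F) (K₀ := K₀) (κ := κ) hRF hp a N hN
        hN' D ζ hζ m hm hP cA hcA cK hcK hone (fun j => x (uu n r j))
        (fun h => hall fun j => congrFun h j) (fun i => x (ww n r i)) ?_
      intro i ha
      set Ω := AlgebraicClosure E with hΩ
      have huΩ : (fun j => algebraMap E Ω (x (uu n r j))) ≠ 0 := by
        intro h0
        apply hall
        intro j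
        exact (algebraMap E Ω).injective (by rw [congrFun h0 j]; simp)
      have h0 : aeval x (g i) = 0 := by
        rw [← aeval_map_algebraMap κ x (g i)]
        refine (hx (d i) _ ?_).2 (hgP i)
        exact IsHomogeneous.map ((mem_homogeneousSubmodule _ _).1 (hghom i)) _
      have h1 : aeval (fun l => algebraMap E Ω (x l)) (g i) = 0 := by
        have h2 := congrArg (algebraMap E Ω) h0
        rw [map_zero, ← aeval_algebraMap_apply] at h2
        exact h2
      rw [hg2 i ha, aeval_rename_emb, map_mul, map_pow, map_pow] at h1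
      rcases mul_eq_zero.1 h1 with h | h
      · left
        obtain ⟨Λ, xx, zz, q, h3, h4, h5, h6, h7⟩ := hGA3 i Ω
          (fun j => algebraMap E Ω (x (uu n r j))) (algebraMap E Ω (x (ww n r i))) huΩ
          (eq_zero_of_pow_eq_zero' h)
        refine ⟨Λ, xx, zz, q, h3, h4, h5, fun l => ?_, h7⟩
        have h8 := h6 l
        rw [EDatum.map_map, map_natCast] at h8
        exact h8
      · right
        obtain ⟨Λ, ss, tt, v, h3, h4, h5, h6, h7⟩ := hGK3 i Ω
          (fun j => algebraMap E Ω (x (uu n r j))) (algebraMap E Ω (x (ww n r i))) huΩ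
          (eq_zero_of_pow_eq_zero' h)
        refine ⟨Λ, ss, tt, v, h3, h4, fun T S => ?_, h6, h7⟩
        have h8 := h5 T S
        rw [map_natCast] at h8
        exact h8



/-- Special forms exist. -/
theorem hasSpecialG {p n r : ℕ} (hp : p.Prime) (a : Fin r → ℕ)
    (d : Fin r → ℕ)
    (hd : ∀ i, a i = 0 ∨ (p ^ a i ∣ d i ∧ 2 ^ n * Nat.factorial n * (p ^ a i) ^ n ≤ d i)) :
    ∃ M : ℕ, HasSpecial n r d M ∧ p ^ (∑ i, a i) ∣ ((2 ^ n * Nat.factorial n) *
      Nat.factorial (max n 2)) ^ r * ((2 ^ r * Nat.factorial n ^ 2) ^ r *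
        Nat.factorial (max n 2) ^ (n + r * n)) * M := by
  classical
  rcases Nat.eq_zero_or_pos n with hn0 | hn
  · subst hn0
    exact ⟨p ^ ∑ i, a i, hasSpecial_zero r d _, Dvd.intro_left _ rfl⟩
  obtain ⟨k, _, _, _, _⟩ : ∃ (k : Type) (_ : Field k) (_ : IsAlgClosed k) (_ : CharZero k),
      Countable k := by
    obtain ⟨k, h1, h2, h3, h4, _, _, _⟩ := exists_generic ℚ Empty
    exact ⟨k, h1, h2, h3, h4⟩
  set B := 2 ^ n * Nat.factorial n with hB
  have hB0 : B ≠ 0 := Nat.mul_ne_zero (by positivity) (Nat.factorial_ne_zero n)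
  set v := B.factorization p with hv
  let b : Fin r → ℕ := fun i => if max n 2 < p ^ (a i - v) then a i - v else 0
  have hb1 : ∀ i, b i ≠ 0 → b i = a i - v ∧ max n 2 < p ^ (a i - v) ∧ a i ≠ 0 := by
    intro i hi
    by_cases h : max n 2 < p ^ (a i - v)
    · have h1 : b i = a i - v := if_pos h
      exact ⟨h1, h, by omega⟩
    · exact absurd (if_neg h) hi
  have hb2 : ∀ i, p ^ a i ∣ p ^ b i * (B * Nat.factorial (max n 2)) := by
    intro i
    have h1 : p ^ a i ∣ p ^ (a i - v) * B := by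
      refine (pow_dvd_pow p (show a i ≤ (a i - v) + v by omega)).trans ?_
      rw [pow_add]
      exact mul_dvd_mul_left _ (Nat.ordProj_dvd _ _)
    by_cases h : max n 2 < p ^ (a i - v)
    · have h2 : b i = a i - v := if_pos h
      rw [h2, ← mul_assoc]
      exact h1.mul_right _
    · have h2 : p ^ (a i - v) ∣ Nat.factorial (max n 2) :=
        Nat.dvd_factorial (pow_pos hp.pos _) (not_lt.1 h)
      have h3 : p ^ (a i - v) * B ∣ B * Nat.factorial (max n 2) := by
        rw [mul_comm]
        exact mul_dvd_mul_left _ h2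
      exact h1.trans (h3.mul_left _)
  let N : Fin r → ℕ := fun i => if b i = 0 then 2 ^ (n + 2) else p ^ b i
  have hN : ∀ i, b i ≠ 0 → N i = p ^ b i := fun i hi => if_neg hi
  have hN' : ∀ i, 2 < N i ∧ n < N i := by
    intro i
    by_cases hi : b i = 0
    · have h1 : N i = 2 ^ (n + 2) := if_pos hi
      rw [h1]
      have h2 : n + 2 < 2 ^ (n + 2) := Nat.lt_two_pow_self
      omega
    · rw [hN i hi, (hb1 i hi).1]
      have := (hb1 i hi).2.1
      omega
  have hζ : ∀ i, ∃ ζ : k, IsPrimitiveRoot ζ (N i) := by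
    intro i
    have : NeZero ((N i : ℕ) : k) := ⟨Nat.cast_ne_zero.2 (by have := hN' i; omega)⟩
    exact HasEnoughRootsOfUnity.exists_primitiveRoot k (N i)
  choose ζ hζ using hζ
  obtain ⟨R₀, _, _, _, _, D, m, _, hm, hP⟩ := exists_params n r N ζ (fun i =>
    exists_datum (by have := hN' i; omega) (by have := hN' i; omega) (ζ i) (hζ i))
  let F := FractionRing R₀
  have hchar : CharZero R₀ := charZero_of_injective_algebraMap (algebraMap k R₀).injective
  have hcharF : CharZero F := inferInstance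
  have hcountF : Countable F := by
    refine Function.Surjective.countable (f := fun p : R₀ × R₀ =>
      (algebraMap _ F p.1) / (algebraMap _ F p.2)) ?_
    intro z
    obtain ⟨a, b, _, h⟩ := IsFractionRing.div_surjective (A := R₀) z
    exact ⟨(a, b), h⟩
  obtain ⟨K₀, _, _, _, _, _, c, hc⟩ := exists_generic F
    ((Fin n × (Fin n → Fin 2)) ⊕ (Fin (n + 1) →₀ ℕ))
  have hcoin : ∀ i, ∃ s t : ℕ, b i ≠ 0 →
      d i = s * (Nat.factorial n * 2 ^ n * p ^ b i) + t * (p ^ b i) ^ n := by
    intro i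
    by_cases hi : b i = 0
    · exact ⟨0, 0, fun h => absurd hi h⟩
    · obtain ⟨h1, h2, h3⟩ := hb1 i hi
      obtain ⟨h4, h5⟩ := (hd i).resolve_left h3
      obtain ⟨s, t, h6⟩ := exists_coinsG hp hn h4 h5
      refine ⟨s, t, fun _ => ?_⟩
      rw [h1]
      exact h6
  have hsp := hasSpecial_of_blocksG (k0 := k) (R0 := R₀) (F := F) (K₀ := K₀)
    (IsFractionRing.injective R₀ F) hp hn b d hcoin N hN hN' D ζ hζ m hm hP
    (fun e => c (Sum.inl e)) (hc.comp _ Sum.inl_injective) (fun i e => c (Sum.inr e.1))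
    (fun i => hc.comp (fun e : {e : Fin (n + 1) →₀ ℕ // e.degree = N i} => Sum.inr e.1)
      (Sum.inr_injective.comp Subtype.val_injective))
  refine ⟨_, hsp, ?_⟩
  set C := (2 ^ r * Nat.factorial n ^ 2) ^ r * Nat.factorial (max n 2) ^ (n + r * n) with hC
  have h1 : p ^ (∑ i, a i) ∣ p ^ (∑ i, b i) * (B * Nat.factorial (max n 2)) ^ r := by
    rw [← Finset.prod_pow_eq_pow_sum, ← Finset.prod_pow_eq_pow_sum]
    have h2 : (∏ i : Fin r, p ^ b i) * (B * Nat.factorial (max n 2)) ^ r =
        ∏ i : Fin r, (p ^ b i * (B * Nat.factorial (max n 2))) := by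
      rw [Finset.prod_mul_distrib, Finset.prod_const, Finset.card_univ, Fintype.card_fin]
    rw [h2]
    exact Finset.prod_dvd_prod_of_dvd _ _ fun i _ => hb2 i
  have h3 : p ^ (∑ i, b i) ∣ C * (p ^ (∑ i, b i) / Nat.gcd (p ^ (∑ i, b i)) C) := by
    calc p ^ (∑ i, b i) =
          Nat.gcd (p ^ (∑ i, b i)) C * (p ^ (∑ i, b i) / Nat.gcd (p ^ (∑ i, b i)) C) :=
          (Nat.mul_div_cancel' (Nat.gcd_dvd_left _ _)).symm
      _ ∣ C * (p ^ (∑ i, b i) / Nat.gcd (p ^ (∑ i, b i)) C) :=
          mul_dvd_mul_right (Nat.gcd_dvd_right _ _) _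
  refine h1.trans ?_
  have h4 := mul_dvd_mul_left ((B * Nat.factorial (max n 2)) ^ r) h3
  rw [mul_comm (p ^ (∑ i, b i))]
  rw [← mul_assoc] at h4
  exact h4

end Pool.Agent.MultiAll
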