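import Pool.Agent.MultiSpec.KumInd
import Pool.Agent.DensDeg.KumOne

/-!
Kummer independence of the residual covers up to a factor `2 ^ r`, for every prime.
-/

set_option autoImplicit false

namespace Pool.Agent.MultiAll

open Polynomial Pool.Agent.MultiSpec.KumIndAux

variable {k R : Type} [Field k] [Field R] [Algebra k R] {r : ℕ} {x : R} {y : Fin r → R}

section

variable [CharZero k] [IsAlgClosed k]

/-- Elimination of the elements of type A of a set of indices. -/
theorem kind_elim (hx : Transcendental k x) {M : ℕ} (hM : 0 < M) (N : Fin r → ℕ)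
    (ty : Fin r → Bool) (A B f : Fin r → k[X]) (mu : Fin r → k)
    (hmu : ∀ i, mu i ≠ 0)
    (pell : ∀ i, ty i = true → A i ^ 2 - f i * B i ^ 2 = C (mu i) * X ^ (N i))
    (hsq : ∀ i, ty i = true → Squarefree (f i)) (hdeg : ∀ i, ty i = true → 0 < (f i).natDegree)
    (hcop : ∀ i j, i ≠ j → ty i = true → ty j = true → IsCoprime (f i) (f j))
    (hy : ∀ i, ty i = true → y i ^ 2 = aeval x (f i)) (S0 : Finset (Fin r))
    (hS0 : ∀ i ∈ S0, ty i = true) (S : Finset (Fin r)) :
    (∀ i ∈ S, ty i = true) → Disjoint S0 S → ∀ (E : ℕ) (e : Fin r → ℕ),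
      ∀ c ∈ Kf k x y S0, ∀ g ∈ Kf k x y (S0 ∪ S),
      x ^ E * c * ∏ i ∈ S, ((aeval x (A i) + aeval x (B i) * y i) / 2) ^ e i = g ^ M →
      ∃ E' : ℕ, ∃ g' ∈ Kf k x y S0, x ^ E' * c ^ 2 ^ S.card = g' ^ M := by
  classical
  have hch : CharZero R := charZero_of_injective_algebraMap (algebraMap k R).injective
  have h2 : (2 : R) ≠ 0 := two_ne_zero
  have hx0 : x ≠ 0 := by
    rintro rfl
    exact hx isAlgebraic_zero
  induction S using Finset.induction_on with
  | empty =>
    intro _ _ E e c hc g hg h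
    rw [Finset.union_empty] at hg
    exact ⟨E, g, hg, by simpa using h⟩
  | insert i S hi ih =>
    intro hS hdis E e c hc g hg h
    have hS' : ∀ j ∈ S, ty j = true := fun j hj => hS j (Finset.mem_insert_of_mem hj)
    have hti : ty i = true := hS i (Finset.mem_insert_self _ _)
    have hdis' : Disjoint S0 S := Finset.disjoint_of_subset_right (Finset.subset_insert _ _) hdis
    have hi0 : i ∉ S0 := Finset.disjoint_right.mp hdis (Finset.mem_insert_self _ _)
    have hyi : y i ∉ Kf k x y (S0 ∪ S) := by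
      intro hm
      refine indep hx ty f hsq hdeg hcop hy (S0 ∪ S) ?_ {i} (by simpa using hti) ?_
        (Finset.singleton_nonempty _) (y i) hm ?_
      · intro j hj
        rcases Finset.mem_union.mp hj with h' | h'
        · exact hS0 j h'
        · exact hS' j h'
      · rw [Finset.disjoint_singleton_right]
        intro h'
        rcases Finset.mem_union.mp h' with h' | h'
        · exact hi0 h'
        · exact hi h'
      · rw [Finset.prod_singleton, hy i hti]
    have hyi2 : y i ^ 2 ∈ Kf k x y (S0 ∪ S) := by rw [hy i hti]; exact aeval_mem_Kf _ _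
    have hH : ∀ j ∈ S, (aeval x (A j) + aeval x (B j) * y j) / 2 ∈ Kf k x y (S0 ∪ S) := by
      intro j hj
      exact div_mem (add_mem (aeval_mem_Kf _ _) (mul_mem (aeval_mem_Kf _ _)
        (y_mem_Kf (Finset.mem_union_right _ hj)))) (ofNat_mem _ 2)
    rw [Finset.union_insert] at hg
    obtain ⟨u, hu, v, hv, rfl⟩ := Kf_insert_form hyi hyi2 hg
    have hcm : x ^ E * c * ∏ j ∈ S, ((aeval x (A j) + aeval x (B j) * y j) / 2) ^ e j ∈
        Kf k x y (S0 ∪ S) :=
      mul_mem (mul_mem (pow_mem (x_mem_Kf _) _) (Kf_mono Finset.subset_union_left hc))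
        (prod_mem fun j hj => pow_mem (hH j hj) _)
    have h3 : (x ^ E * c * ∏ j ∈ S, ((aeval x (A j) + aeval x (B j) * y j) / 2) ^ e j) *
        (aeval x (A i) / 2 + aeval x (B i) / 2 * y i) ^ e i = (u + v * y i) ^ M := by
      rw [← h, Finset.prod_insert hi]
      ring
    have h4 := elim_one hyi hyi2 (div_mem (aeval_mem_Kf _ _) (ofNat_mem _ 2))
      (div_mem (aeval_mem_Kf _ _) (ofNat_mem _ 2)) hcm hu hv (e i) M h3
    -- the norm of `H i`
    obtain ⟨ν, hν⟩ := IsAlgClosed.exists_pow_nat_eq ((mu i / 4) ^ e i) hM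
    have hν0 : ν ≠ 0 := by
      rintro rfl
      rw [zero_pow hM.ne'] at hν
      have : (mu i / 4) ^ e i ≠ 0 := pow_ne_zero _ (div_ne_zero (hmu i) (by norm_num))
      exact this hν.symm
    have h5 : (aeval x (A i) / 2) ^ 2 - (aeval x (B i) / 2) ^ 2 * y i ^ 2 =
        algebraMap k R (mu i / 4) * x ^ (N i) := by
      have h6 := congrArg (aeval x) (pell i hti)
      simp only [map_sub, map_mul, map_pow, aeval_C, aeval_X] at h6
      rw [hy i hti, map_div₀]
      have h7 : algebraMap k R 4 = 4 := map_ofNat _ 4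
      rw [h7]
      field_simp
      linear_combination 4 * h6
    rw [h5, mul_pow, ← map_pow, ← hν, map_pow, ← pow_mul] at h4
    have hν1 : algebraMap k R ν ≠ 0 := (_root_.map_ne_zero _).mpr hν0
    have h8 : x ^ (2 * E + N i * e i) * c ^ 2 *
        ∏ j ∈ S, ((aeval x (A j) + aeval x (B j) * y j) / 2) ^ (2 * e j) =
        ((u ^ 2 - v ^ 2 * y i ^ 2) / algebraMap k R ν) ^ M := by
      rw [div_pow, eq_div_iff (pow_ne_zero _ hν1), ← h4]
      have : ∏ j ∈ S, ((aeval x (A j) + aeval x (B j) * y j) / 2) ^ (2 * e j) =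
          (∏ j ∈ S, ((aeval x (A j) + aeval x (B j) * y j) / 2) ^ e j) ^ 2 := by
        rw [← Finset.prod_pow]
        exact Finset.prod_congr rfl fun j _ => pow_mul' _ 2 _
      rw [this]
      ring
    obtain ⟨E', g', hg', hs⟩ := ih hS' hdis' (2 * E + N i * e i) (fun j => 2 * e j)
      (c ^ 2) (pow_mem hc 2) _
      (div_mem (sub_mem (pow_mem hu 2) (mul_mem (pow_mem hv 2) hyi2))
        ((Kf k x y (S0 ∪ S)).algebraMap_mem ν)) h8
    refine ⟨E', g', hg', ?_⟩
    rw [← hs, ← pow_mul, ← pow_succ', Finset.card_insert_of_notMem hi]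

omit [CharZero k] [IsAlgClosed k] in
/-- root multiplicities of an `M`-th power in `k(x)` -/
theorem kind_typeK (hx : Transcendental k x) {M : ℕ} (hM : 0 < M)
    (K : Finset (Fin r)) (c : Fin r → k) (hc0 : ∀ i ∈ K, c i ≠ 0)
    (hc : ∀ i ∈ K, ∀ j ∈ K, i ≠ j → c i ≠ c j) (E : ℕ) (e : Fin r → ℕ) {g : R}
    (hg : g ∈ IntermediateField.adjoin k {x})
    (h : x ^ E * ∏ i ∈ K, (x - algebraMap k R (c i)) ^ e i = g ^ M) :
    ∀ i ∈ K, M ∣ e i := by
  intro i hi
  obtain ⟨P, Q, hPQ⟩ := (IntermediateField.mem_adjoin_simple_iff k g).mp hg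
  have hinj : Function.Injective (aeval x : k[X] →ₐ[k] R) :=
    transcendental_iff_injective.mp hx
  have hxc : ∀ j, x - algebraMap k R (c j) = aeval x (X - C (c j)) := fun j => by simp
  have hne : ∀ j, (X - C (c j) : k[X]) ≠ 0 := fun j => X_sub_C_ne_zero _
  have hXE : (X ^ E : k[X]) ≠ 0 := pow_ne_zero _ X_ne_zero
  have hprod0 : (∏ j ∈ K, (X - C (c j) : k[X]) ^ e j) ≠ 0 :=
    Finset.prod_ne_zero_iff.mpr fun j _ => pow_ne_zero _ (hne j)
  have hL : X ^ E * (∏ j ∈ K, (X - C (c j) : k[X]) ^ e j) ≠ 0 := mul_ne_zero hXE hprod0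
  have hL' : aeval x (X ^ E * (∏ j ∈ K, (X - C (c j) : k[X]) ^ e j)) = g ^ M := by
    rw [← h, map_mul, map_pow, aeval_X, map_prod]
    congr 1
    exact Finset.prod_congr rfl fun j _ => by rw [map_pow, ← hxc]
  have hg0 : g ^ M ≠ 0 := by
    rw [← hL']
    intro h0
    exact hL (hinj (by rw [h0, map_zero]))
  have hQ : Q ≠ 0 := by
    rintro rfl
    rw [map_zero, div_zero] at hPQ
    rw [hPQ, zero_pow hM.ne'] at hg0
    exact hg0 rfl
  have hP : P ≠ 0 := by
    rintro rfl
    rw [map_zero, zero_div] at hPQ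
    rw [hPQ, zero_pow hM.ne'] at hg0
    exact hg0 rfl
  have hQ' : aeval x Q ≠ 0 := fun h0 => hQ (hinj (by rw [h0, map_zero]))
  have key : X ^ E * (∏ j ∈ K, (X - C (c j) : k[X]) ^ e j) * Q ^ M = P ^ M := by
    apply hinj
    rw [map_mul, hL', map_pow, map_pow, hPQ, div_pow,
      div_mul_cancel₀ _ (pow_ne_zero _ hQ')]
  have h1 := congrArg (rootMultiplicity (c i)) key
  have hW : (∏ j ∈ K.erase i, (X - C (c j) : k[X]) ^ e j).eval (c i) ≠ 0 := by
    rw [eval_prod]
    refine Finset.prod_ne_zero_iff.mpr fun j hj => ?_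
    rw [eval_pow, eval_sub, eval_X, eval_C]
    exact pow_ne_zero _ (sub_ne_zero.mpr (hc i hi j (Finset.mem_of_mem_erase hj)
      (Finset.ne_of_mem_erase hj).symm))
  have hW0 : (∏ j ∈ K.erase i, (X - C (c j) : k[X]) ^ e j) ≠ 0 := by
    intro h0
    rw [h0, eval_zero] at hW
    exact hW rfl
  have hXr : rootMultiplicity (c i) (X ^ E : k[X]) = 0 := by
    rw [rm_pow, rootMultiplicity_eq_zero, mul_zero]
    rw [IsRoot.def, eval_X]
    exact hc0 i hi
  have h2 : rootMultiplicity (c i) (∏ j ∈ K, (X - C (c j) : k[X]) ^ e j) = e i := by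
    rw [← Finset.mul_prod_erase K _ hi, rootMultiplicity_mul (mul_ne_zero
      (pow_ne_zero _ (hne i)) hW0), rootMultiplicity_X_sub_C_pow,
      rootMultiplicity_eq_zero (fun h => hW h), add_zero]
  rw [rootMultiplicity_mul (mul_ne_zero hL (pow_ne_zero _ hQ)), rootMultiplicity_mul hL, hXr, h2,
    rm_pow (c i) Q, rm_pow (c i) P, zero_add] at h1
  have h4 : M ∣ e i + M * rootMultiplicity (c i) Q := by
    rw [h1]; exact dvd_mul_right _ _
  exact (Nat.dvd_add_left (dvd_mul_right _ _)).mp h4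

omit [CharZero k] in
/-- One element of type A. -/
theorem kind_one {L : Type} [Field L] [Algebra k L] {p a m e : ℕ} (hp : p.Prime) (ha : a ≠ 0)
    (hp2 : p = 2 → 2 ≤ a) (x H w : L) (mu : k) (hmu : mu ≠ 0) (hx0 : x ≠ 0) (hH0 : H ≠ 0)
    (hNP : ∀ g : L, g ^ p ≠ H)
    (h : H ^ (2 * e) = (algebraMap k L mu * x ^ (p ^ a)) ^ e * w ^ (p ^ m)) : p ^ m ∣ 2 * e := by
  obtain ⟨b, rfl⟩ := Nat.exists_eq_succ_of_ne_zero ha
  by_cases hp2' : p = 2
  · subst hp2'
    obtain ⟨ν, hν⟩ := IsAlgClosed.exists_pow_nat_eq mu (n := 2) (by norm_num)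
    obtain ⟨ν', hν'⟩ := IsAlgClosed.exists_pow_nat_eq ν (n := 2) (by norm_num)
    have hν0 : ν ≠ 0 := by
      rintro rfl
      rw [zero_pow two_ne_zero] at hν
      exact hmu hν.symm
    have hνL : algebraMap k L ν ≠ 0 := (_root_.map_ne_zero _).mpr hν0
    have hb : 1 ≤ b := by
      have := hp2 rfl
      omega
    obtain ⟨b', rfl⟩ := Nat.exists_eq_add_of_le hb
    set T : L := algebraMap k L ν * x ^ (2 ^ (1 + b')) with hT
    have hT0 : T ≠ 0 := mul_ne_zero hνL (pow_ne_zero _ hx0)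
    have hT2 : T ^ 2 = algebraMap k L mu * x ^ (2 ^ (1 + b' + 1)) := by
      rw [hT, mul_pow, ← map_pow, hν, ← pow_mul, ← pow_succ]
    refine DensDeg.dvd_of_pow_eq (k := k) hp (H / T) w ?_ ?_
    · intro g hg
      refine hNP (g * (algebraMap k L ν' * x ^ (2 ^ b'))) ?_
      have h1 : (algebraMap k L ν' * x ^ (2 ^ b')) ^ 2 = T := by
        rw [hT, mul_pow, ← map_pow, hν', ← pow_mul, ← pow_succ, add_comm 1 b']
      rw [mul_pow, hg, h1, div_mul_cancel₀ _ hT0]
    · have h1 : T ^ (2 * e) ≠ 0 := pow_ne_zero _ hT0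
      have h2 : T ^ (2 * e) = (algebraMap k L mu * x ^ (2 ^ (1 + b').succ)) ^ e := by
        rw [pow_mul T, hT2]
      rw [div_pow, h, eq_div_iff h1, h2]
      ring
  · obtain ⟨ν, hν⟩ := IsAlgClosed.exists_pow_nat_eq mu hp.pos
    have hν0 : ν ≠ 0 := by
      rintro rfl
      rw [zero_pow hp.ne_zero] at hν
      exact hmu hν.symm
    have hνL : algebraMap k L ν ≠ 0 := (_root_.map_ne_zero _).mpr hν0
    set T : L := algebraMap k L ν * x ^ (p ^ b) with hT
    have hT0 : T ≠ 0 := mul_ne_zero hνL (pow_ne_zero _ hx0)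
    have hTp : T ^ p = algebraMap k L mu * x ^ (p ^ (b + 1)) := by
      rw [hT, mul_pow, ← map_pow, hν, ← pow_mul, ← pow_succ]
    obtain ⟨t, ht⟩ : ∃ t, p = 2 * t + 1 := by
      rcases hp.eq_two_or_odd' with h0 | h0
      · exact absurd h0 hp2'
      · exact h0
    have h3 : p ^ m ∣ e := by
      refine DensDeg.dvd_of_pow_eq (k := k) hp (H ^ 2 / T ^ p) w ?_ ?_
      · intro g hg
        refine hNP ((g * T) ^ (t + 1) / H) ?_
        have h4 : (g * T) ^ p = H ^ 2 := by
          rw [mul_pow, hg, div_mul_cancel₀ _ (pow_ne_zero _ hT0)]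
        rw [div_pow, ← pow_mul, mul_comm (t + 1), pow_mul, h4, div_eq_iff (pow_ne_zero _ hH0),
          ← pow_mul]
        have h5 : H ^ p = H ^ (2 * t + 1) := by rw [← ht]
        rw [h5]
        ring
      · have h1 : (T ^ p) ^ e ≠ 0 := pow_ne_zero _ (pow_ne_zero _ hT0)
        have h2 : (T ^ p) ^ e = (algebraMap k L mu * x ^ (p ^ b.succ)) ^ e := by
          rw [hTp]
        rw [div_pow, eq_div_iff h1, ← pow_mul H, h, h2]
        ring
    exact h3.mul_left 2

end

/-- **Kummer independence with loss.**  Indices `i` with `ty i = true` are of type A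
(`h = (A + B y)/2`, `y ^ 2 = f`), the others of type K (`h = x - c`). -/
theorem kummer_independent_loss {k R : Type} [Field k] [IsAlgClosed k] [CharZero k] [Field R]
    [Algebra k R] (x : R) (hx : Transcendental k x) {p r : ℕ} (hp : p.Prime)
    (a : Fin r → ℕ) (ty : Fin r → Bool) (ha : ∀ i, ty i = true → a i ≠ 0)
    (hp2 : ∀ i, ty i = true → p = 2 → 2 ≤ a i)
    -- type A
    (A B f : Fin r → k[X]) (mu : Fin r → k) (hmu : ∀ i, mu i ≠ 0)
    (pell : ∀ i, ty i = true → A i ^ 2 - f i * B i ^ 2 = C (mu i) * X ^ (p ^ a i))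
    (hsq : ∀ i, ty i = true → Squarefree (f i)) (hdeg : ∀ i, ty i = true → 0 < (f i).natDegree)
    (hcop : ∀ i j, i ≠ j → ty i = true → ty j = true → IsCoprime (f i) (f j))
    (hNP : ∀ i, ty i = true → a i ≠ 0 → ∀ (L : Type) [Field L] [Algebra k L] (z Y g : L),
      Transcendental k z → Y ^ 2 = aeval z (f i) → g ∈ IntermediateField.adjoin k {z, Y} →
      2 * g ^ p ≠ aeval z (A i) + aeval z (B i) * Y)
    (y : Fin r → R) (hy : ∀ i, ty i = true → y i ^ 2 = aeval x (f i))
    -- type K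
    (c : Fin r → k) (hc0 : ∀ i, ty i = false → c i ≠ 0)
    (hc : ∀ i j, i ≠ j → ty i = false → ty j = false → c i ≠ c j)
    -- a relation
    (m : ℕ) (e : Fin r → ℕ) (g : R)
    (hg : g ∈ IntermediateField.adjoin k ({x} ∪ {z | ∃ i, ty i = true ∧ z = y i}))
    (hrel : ∏ i, (if ty i then (aeval x (A i) + aeval x (B i) * y i) / 2
      else x - algebraMap k R (c i)) ^ e i = g ^ (p ^ m)) :
    ∀ i, p ^ m ∣ 2 ^ r * e i := by
  classical
  have hch : CharZero R := charZero_of_injective_algebraMap (algebraMap k R).injective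
  have h2 : (2 : R) ≠ 0 := two_ne_zero
  have hM : 0 < p ^ m := pow_pos hp.pos _
  have hx0 : x ≠ 0 := by
    rintro rfl
    exact hx isAlgebraic_zero
  set SA : Finset (Fin r) := Finset.univ.filter (fun i => ty i = true) with hSA
  set SK : Finset (Fin r) := Finset.univ.filter (fun i => ¬ ty i = true) with hSK
  have hSAm : ∀ i ∈ SA, ty i = true := fun i hi => (Finset.mem_filter.mp hi).2
  have hSKm : ∀ i ∈ SK, ty i = false := fun i hi => by
    have := (Finset.mem_filter.mp hi).2
    simpa using this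
  have hcard : SA.card ≤ r := by
    refine (Finset.card_le_univ _).trans ?_
    rw [Fintype.card_fin]
  have hKfA : IntermediateField.adjoin k ({x} ∪ {z | ∃ i, ty i = true ∧ z = y i}) =
      Kf k x y SA := by
    unfold Kf
    congr 1
    ext z
    simp [hSA]
  rw [hKfA] at hg
  set HA : Fin r → R := fun i => (aeval x (A i) + aeval x (B i) * y i) / 2 with hHA
  set cK : R := ∏ i ∈ SK, (x - algebraMap k R (c i)) ^ e i with hcK
  have hrel' : cK * ∏ i ∈ SA, HA i ^ e i = g ^ (p ^ m) := by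
    rw [← hrel, ← Finset.prod_filter_mul_prod_filter_not Finset.univ (fun i => ty i = true),
      mul_comm]
    congr 1
    · refine Finset.prod_congr rfl fun i hi => ?_
      rw [if_pos (hSAm i hi)]
    · refine Finset.prod_congr rfl fun i hi => ?_
      rw [if_neg (by rw [hSKm i hi]; exact Bool.false_ne_true)]
  have hcKm : ∀ S, cK ∈ Kf k x y S := fun S => prod_mem fun i _ => pow_mem
    (sub_mem (x_mem_Kf S) ((Kf k x y S).algebraMap_mem _)) _
  intro j
  by_cases hj : ty j = true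
  · have haj : a j ≠ 0 := ha j hj
    have hxc0 : ∀ i, x - algebraMap k R (c i) ≠ 0 := fun i h0 => by
      apply hx
      rw [sub_eq_zero.mp h0]
      exact isAlgebraic_algebraMap _
    have hcK0 : cK ≠ 0 := Finset.prod_ne_zero_iff.mpr fun i _ => pow_ne_zero _ (hxc0 i)
    have hjA : j ∈ SA := Finset.mem_filter.mpr ⟨Finset.mem_univ _, hj⟩
    have hHm : HA j ∈ Kf k x y {j} := div_mem (add_mem (aeval_mem_Kf _ _)
      (mul_mem (aeval_mem_Kf _ _) (y_mem_Kf (Finset.mem_singleton_self _)))) (ofNat_mem _ 2)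
    have hH0 : HA j ≠ 0 := by
      intro h0
      have h1 : aeval x (A j) + aeval x (B j) * y j = 0 := by
        have := congrArg (· * 2) h0
        simpa [hHA] using this
      have h2 := congrArg (aeval x) (pell j hj)
      simp only [map_sub, map_mul, map_pow, aeval_C, aeval_X] at h2
      rw [← hy j hj] at h2
      have h3 : algebraMap k R (mu j) * x ^ (p ^ a j) = 0 := by
        rw [← h2]
        linear_combination (aeval x (A j) - aeval x (B j) * y j) * h1
      rcases mul_eq_zero.mp h3 with h4 | h4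
      · exact hmu j ((_root_.map_eq_zero _).mp h4)
      · exact hx0 (pow_eq_zero_iff (pow_ne_zero _ hp.pos.ne') |>.mp h4)
    obtain ⟨E', g', hg', hs⟩ := kind_elim (y := y) hx hM (fun i => p ^ a i) ty A B f mu hmu pell
      hsq hdeg hcop hy {j}
      (by simpa using hj) (SA.erase j) (fun i hi => hSAm i (Finset.mem_of_mem_erase hi))
      (Finset.disjoint_singleton_left.mpr (Finset.notMem_erase _ _)) 0 e (cK * HA j ^ e j)
      (mul_mem (hcKm _) (pow_mem hHm _)) g (by
        have : {j} ∪ SA.erase j = SA := by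
          rw [← Finset.insert_eq, Finset.insert_erase hjA]
        rw [this]
        exact hg) (by
        rw [← hrel', ← Finset.mul_prod_erase SA _ hjA]
        ring)
    set s := (SA.erase j).card with hsdef
    have hs1 : s + 1 ≤ r := by
      rw [hsdef, Finset.card_erase_of_mem hjA]
      have : 0 < SA.card := Finset.card_pos.mpr ⟨j, hjA⟩
      omega
    -- conjugation over `k(x)`
    have hyj : y j ∉ Kf k x y (∅ : Finset (Fin r)) := by
      intro hm
      refine indep hx ty f hsq hdeg hcop hy ∅ (by simp) {j} (by simpa using hj)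
        (Finset.disjoint_empty_left _) (Finset.singleton_nonempty _) (y j) hm ?_
      rw [Finset.prod_singleton, hy j hj]
    have hyj2 : y j ^ 2 ∈ Kf k x y (∅ : Finset (Fin r)) := by
      rw [hy j hj]; exact aeval_mem_Kf _ _
    have hg'' : g' ∈ Kf k x y (insert j (∅ : Finset (Fin r))) := by
      rw [insert_empty_eq]
      exact hg'
    obtain ⟨u, hu, v, hv, rfl⟩ := Kf_insert_form hyj hyj2 hg''
    have h3 : (x ^ E' * cK ^ 2 ^ s) *
        (aeval x (A j) / 2 + aeval x (B j) / 2 * y j) ^ (e j * 2 ^ s) =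
          (u + v * y j) ^ (p ^ m) := by
      rw [← hs, mul_pow, ← pow_mul]
      have : aeval x (A j) / 2 + aeval x (B j) / 2 * y j = HA j := by
        rw [hHA]; ring
      rw [this]
      ring
    have hC0 : x ^ E' * cK ^ 2 ^ s ≠ 0 := mul_ne_zero (pow_ne_zero _ hx0) (pow_ne_zero _ hcK0)
    have h4 := elim_one hyj hyj2 (div_mem (aeval_mem_Kf _ _) (ofNat_mem _ 2))
      (div_mem (aeval_mem_Kf _ _) (ofNat_mem _ 2))
      (mul_mem (pow_mem (x_mem_Kf _) _) (pow_mem (hcKm _) _)) hu hv (e j * 2 ^ s) (p ^ m) h3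
    have h5 : (aeval x (A j) / 2) ^ 2 - (aeval x (B j) / 2) ^ 2 * y j ^ 2 =
        algebraMap k R (mu j / 4) * x ^ (p ^ a j) := by
      have h6 := congrArg (aeval x) (pell j hj)
      simp only [map_sub, map_mul, map_pow, aeval_C, aeval_X] at h6
      rw [hy j hj, map_div₀]
      have h7 : algebraMap k R 4 = 4 := map_ofNat _ 4
      rw [h7]
      field_simp
      linear_combination 4 * h6
    rw [h5] at h4
    have hmu4 : mu j / 4 ≠ 0 := div_ne_zero (hmu j) (by norm_num)
    have hN0 : algebraMap k R (mu j / 4) * x ^ (p ^ a j) ≠ 0 :=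
      mul_ne_zero ((_root_.map_ne_zero _).mpr hmu4) (pow_ne_zero _ hx0)
    have hn0 : u ^ 2 - v ^ 2 * y j ^ 2 ≠ 0 := by
      intro h0
      rw [h0, zero_pow hM.ne'] at h4
      exact mul_ne_zero (pow_ne_zero _ hN0) (pow_ne_zero _ hC0) h4
    have h7 : aeval x (A j) / 2 + aeval x (B j) / 2 * y j = HA j := by
      rw [hHA]; ring
    have h6' : HA j ^ (2 * (e j * 2 ^ s)) * (u ^ 2 - v ^ 2 * y j ^ 2) ^ (p ^ m) =
        (algebraMap k R (mu j / 4) * x ^ (p ^ a j)) ^ (e j * 2 ^ s) *
          ((u + v * y j) ^ 2) ^ (p ^ m) := by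
      have h8 : ((u + v * y j) ^ 2) ^ (p ^ m) = ((u + v * y j) ^ (p ^ m)) ^ 2 :=
        pow_right_comm _ _ _
      rw [← h4, h8, ← h3, h7]
      ring
    have h6 : HA j ^ (2 * (e j * 2 ^ s)) =
        (algebraMap k R (mu j / 4) * x ^ (p ^ a j)) ^ (e j * 2 ^ s) *
          ((u + v * y j) ^ 2 / (u ^ 2 - v ^ 2 * y j ^ 2)) ^ (p ^ m) := by
      rw [div_pow ((u + v * y j) ^ 2) (u ^ 2 - v ^ 2 * y j ^ 2), ← mul_div_assoc,
        eq_div_iff (pow_ne_zero _ hn0)]
      exact h6'
    -- descend to the field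
    have hwm : (u + v * y j) ^ 2 / (u ^ 2 - v ^ 2 * y j ^ 2) ∈ Kf k x y {j} := by
      have hum : u ∈ Kf k x y {j} := Kf_mono (Finset.empty_subset _) hu
      have hvm : v ∈ Kf k x y {j} := Kf_mono (Finset.empty_subset _) hv
      have hym : y j ∈ Kf k x y {j} := y_mem_Kf (Finset.mem_singleton_self _)
      exact div_mem (pow_mem (add_mem hum (mul_mem hvm hym)) _)
        (sub_mem (pow_mem hum _) (mul_mem (pow_mem hvm _) (pow_mem hym _)))
    have hKj : Kf k x y {j} = IntermediateField.adjoin k {x, y j} := by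
      unfold Kf
      congr 1
      ext z
      simp [or_comm]
    have h9 : p ^ m ∣ 2 * (e j * 2 ^ s) := by
      refine kind_one (k := k) (L := Kf k x y {j}) hp haj (hp2 j hj) ⟨x, x_mem_Kf _⟩
        ⟨HA j, hHm⟩ ⟨_, hwm⟩ (mu j / 4) hmu4 ?_ ?_ ?_ ?_
      · intro h0
        exact hx0 (congrArg Subtype.val h0)
      · intro h0
        exact hH0 (congrArg Subtype.val h0)
      · intro b hb
        refine hNP j hj haj R x (y j) b hx (hy j hj) (by rw [← hKj]; exact b.2) ?_
        have h10 : (b : R) ^ p = HA j := congrArg Subtype.val hb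
        rw [h10, hHA]
        field_simp
      · apply Subtype.ext
        exact h6
    have h10 : 2 ^ r * e j = 2 * (e j * 2 ^ s) * 2 ^ (r - (s + 1)) := by
      have h11 : (2 : ℕ) ^ r = 2 * 2 ^ s * 2 ^ (r - (s + 1)) := by
        rw [← pow_succ', ← pow_add, Nat.add_sub_cancel' hs1]
      rw [h11]
      ring
    rw [h10]
    exact h9.mul_right _
  · -- type K
    obtain ⟨E', g', hg', hs⟩ := kind_elim (y := y) hx hM (fun i => p ^ a i) ty A B f mu hmu pell
      hsq hdeg hcop hy ∅
      (by simp) SA hSAm (Finset.disjoint_empty_left _) 0 e cK (hcKm _) g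
      (by rwa [Finset.empty_union]) (by rw [pow_zero, one_mul]; exact hrel')
    rw [Kf_empty] at hg'
    have hjK : j ∈ SK := Finset.mem_filter.mpr ⟨Finset.mem_univ _, hj⟩
    have h3 := kind_typeK hx hM SK c (fun i hi => hc0 i (hSKm i hi))
      (fun i hi j hj hij => hc i j hij (hSKm i hi) (hSKm j hj)) E' (fun i => e i * 2 ^ SA.card)
      hg' (by
        rw [← hs, hcK, ← Finset.prod_pow]
        congr 1
        exact Finset.prod_congr rfl fun i _ => by rw [pow_mul]) j hjK
    have h10 : 2 ^ r * e j = (e j * 2 ^ SA.card) * 2 ^ (r - SA.card) := by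
      have h11 : (2 : ℕ) ^ r = 2 ^ SA.card * 2 ^ (r - SA.card) := by
        rw [← pow_add, Nat.add_sub_cancel' hcard]
      rw [h11]
      ring
    rw [h10]
    exact h3.mul_right _

end Pool.Agent.MultiAll
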