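import Pool.Agent.MultiAll.KRad
import Pool.Agent.MultiAll.KInd

/-!
The degree of the residual covers, for every prime, with a bounded loss.
-/

set_option autoImplicit false

namespace Pool.Agent.MultiAll

open Polynomial

/-- Kummer theory of the residual covers with loss.  Indices `i` with `ty i = true` are of type A
(`h = (A + B y)/2`, `y ^ 2 = f`), the others of type K (`h = x - c`); the radicals are
`θ i ^ (p ^ a i) = h ^ g`. -/
theorem dvd_finrank_kummer_all {k R : Type} [Field k] [IsAlgClosed k] [CharZero k] [Field R]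
    [Algebra k R] (x : R) (hx : Transcendental k x) {p r g : ℕ} (hp : p.Prime)
    (a : Fin r → ℕ) (ty : Fin r → Bool) (ha : ∀ i, ty i = true → a i ≠ 0)
    (hp2 : ∀ i, ty i = true → p = 2 → 2 ≤ a i)
    -- type A
    (A B f : Fin r → k[X]) (mu : Fin r → k) (hmu : ∀ i, mu i ≠ 0)
    (pell : ∀ i, ty i = true → A i ^ 2 - f i * B i ^ 2 = C (mu i) * X ^ (p ^ a i))
    (hsq : ∀ i, ty i = true → Squarefree (f i)) (hdeg : ∀ i, ty i = true → 0 < (f i).natDegree)
    (hcop : ∀ i j, i ≠ j → ty i = true → ty j = true → IsCoprime (f i) (f j))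
    (hNP : ∀ i, ty i = true → a i ≠ 0 → ∀ (L : Type) [Field L] [Algebra k L] (z Y g : L),
      Transcendental k z → Y ^ 2 = aeval z (f i) → g ∈ IntermediateField.adjoin k {z, Y} →
      2 * g ^ p ≠ aeval z (A i) + aeval z (B i) * Y)
    (y h β : Fin r → R) (hy : ∀ i, ty i = true → y i ^ 2 = aeval x (f i))
    (hh : ∀ i, ty i = true → 2 * h i = aeval x (A i) + aeval x (B i) * y i)
    (hβ : ∀ i, ty i = true → β i ^ (p ^ a i) = h i ^ g)
    -- type K
    (c : Fin r → k) (hc0 : ∀ i, ty i = false → c i ≠ 0)
    (hc : ∀ i j, i ≠ j → ty i = false → ty j = false → c i ≠ c j)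
    (s : Fin r → R) (hs : ∀ i, ty i = false → s i ^ (p ^ a i) = (x - algebraMap k R (c i)) ^ g) :
    p ^ (∑ i, a i) ∣ (2 ^ r * g) ^ r *
      Module.finrank (IntermediateField.adjoin k {x}) R := by
  have hR : CharZero R := charZero_of_injective_algebraMap (algebraMap k R).injective
  have h2 : (2 : R) ≠ 0 := two_ne_zero
  obtain ⟨L1, hL1⟩ : ∃ L1 : IntermediateField k R,
      L1 = IntermediateField.adjoin k ({x} ∪ {z | ∃ i, ty i = true ∧ z = y i}) := ⟨_, rfl⟩
  have hle : IntermediateField.adjoin k {x} ≤ L1 := by
    rw [hL1]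
    exact IntermediateField.adjoin.mono _ _ _ Set.subset_union_left
  have hxL : x ∈ L1 := hle (IntermediateField.mem_adjoin_simple_self k x)
  have hyL : ∀ i, ty i = true → y i ∈ L1 := by
    intro i hi
    rw [hL1]
    exact IntermediateField.subset_adjoin _ _ (Or.inr ⟨i, hi, rfl⟩)
  have haev : ∀ q : k[X], aeval x q ∈ L1 := by
    intro q
    have : aeval x q = ((aeval (⟨x, hxL⟩ : L1) q : L1) : R) := by
      rw [← IntermediateField.algebraMap_apply, ← Polynomial.aeval_algebraMap_apply]
      rfl
    rw [this]
    exact Subtype.mem _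
  set K := IntermediateField.extendScalars hle with hK
  have hhex : ∀ i, ∃ hi : K,
      (hi : R) = if ty i then (aeval x (A i) + aeval x (B i) * y i) / 2
        else x - algebraMap k R (c i) := by
    intro i
    by_cases hty : ty i = true
    · refine ⟨⟨(aeval x (A i) + aeval x (B i) * y i) / 2, ?_⟩, ?_⟩
      · rw [hK, IntermediateField.mem_extendScalars]
        exact L1.div_mem (L1.add_mem (haev _) (L1.mul_mem (haev _) (hyL i hty)))
          (ofNat_mem L1 2)
      · simp [hty]
    · refine ⟨⟨x - algebraMap k R (c i), ?_⟩, ?_⟩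
      · rw [hK, IntermediateField.mem_extendScalars]
        exact L1.sub_mem hxL (L1.algebraMap_mem _)
      · simp [hty]
  choose h' hh' using hhex
  let algkK : Algebra k K :=
    ((algebraMap (IntermediateField.adjoin k {x}) K).comp
      (algebraMap k (IntermediateField.adjoin k {x}))).toAlgebra
  have htow : IsScalarTower k K R := IsScalarTower.of_algebraMap_eq fun z => rfl
  have key : p ^ (∑ i, a i) ∣ (2 ^ r * g) ^ r * Module.finrank K R := by
    refine dvd_radicals_loss (k := k) (K := K) (R := R) hp g (2 ^ r) a h'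
      (fun i => if ty i then β i else s i) ?_ ?_
    · intro i
      change _ = ((h' i ^ g : K) : R)
      rw [IntermediateField.coe_pow, hh' i]
      by_cases hty : ty i = true
      · simp only [hty, if_true]
        rw [hβ i hty]
        congr 1
        rw [eq_div_iff h2, ← hh i hty, mul_comm]
      · simp only [hty]
        exact hs i (by simpa using hty)
    · intro m e b hrel
      refine kummer_independent_loss x hx hp a ty ha hp2 A B f mu hmu pell hsq hdeg hcop hNP y hy
        c hc0 hc m e (b : R) ?_ ?_
      · rw [← hL1]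
        exact (IntermediateField.mem_extendScalars hle).mp b.2
      · have h3 := congrArg (algebraMap K R) hrel
        rw [map_prod, map_pow] at h3
        rw [show ((b : R)) = algebraMap K R b from rfl, ← h3]
        apply Finset.prod_congr rfl
        intro i _
        rw [map_pow]
        congr 1
        exact (hh' i).symm
  rw [← Module.finrank_mul_finrank (IntermediateField.adjoin k {x}) K R, mul_left_comm]
  exact key.mul_left _

end Pool.Agent.MultiAll
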