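import Pool.Agent.DensDeg.KumOne

/-!
Radicals of elements that are independent up to a bounded loss, for every prime.
-/

set_option autoImplicit false

namespace Pool.Agent.MultiAll

open Polynomial Module IntermediateField

/-- A radical extension: its degree is the least exponent of the radical which gives an element of
the base field, and elements which have a power in the base field are monomials. -/
theorem krad_step {k K R : Type*} [Field k] [IsAlgClosed k] [CharZero k] [Field K] [Field R]
    [Algebra k K] [Algebra K R] [Algebra k R] [IsScalarTower k K R] {p a : ℕ} (hp : p.Prime)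
    (θ : R) (u : K) (hθ : θ ^ (p ^ a) = algebraMap K R u) :
    FiniteDimensional K (IntermediateField.adjoin K {θ}) ∧
    (∃ c : K, algebraMap K R c = θ ^ finrank K (IntermediateField.adjoin K {θ})) ∧
    ∀ (m : ℕ) (v : K) (b : R), b ∈ IntermediateField.adjoin K {θ} →
      b ^ (p ^ m) = algebraMap K R v → ∃ (j : ℕ) (c : K), b = algebraMap K R c * θ ^ j := by
  classical
  have hroot : ∀ (m : ℕ) (z : R), z ^ (p ^ m) = 1 → ∃ c : K, algebraMap K R c = z := by
    intro m z hz
    have h1 : IsAlgebraic k z := by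
      refine IsAlgebraic.of_pow (n := p ^ m) (pow_pos hp.pos _) ?_
      rw [hz]; exact isAlgebraic_one
    obtain ⟨c, hc⟩ := CurveDeg.mem_range_of_isAlgebraic h1
    exact ⟨algebraMap k K c, by rw [← IsScalarTower.algebraMap_apply, hc]⟩
  have hex : ∃ a' : ℕ, ∃ h' : K, algebraMap K R h' = θ ^ (p ^ a') := ⟨a, u, hθ.symm⟩
  obtain ⟨a', ⟨h', hh'⟩, hmin⟩ : ∃ a' : ℕ, (∃ h' : K, algebraMap K R h' = θ ^ (p ^ a')) ∧
      ∀ b < a', ¬ ∃ h' : K, algebraMap K R h' = θ ^ (p ^ b) :=
    ⟨Nat.find hex, Nat.find_spec hex, fun b hb => Nat.find_min hex hb⟩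
  have hn : 0 < p ^ a' := pow_pos hp.pos _
  have hint : IsIntegral K θ := by
    refine IsIntegral.of_pow hn ?_
    rw [← hh']; exact isIntegral_algebraMap
  have hfd : FiniteDimensional K (IntermediateField.adjoin K {θ}) :=
    IntermediateField.adjoin.finiteDimensional hint
  have hfr : Module.Free K (IntermediateField.adjoin K {θ}) := Module.Free.of_divisionRing _ _
  -- the degree
  have hle : (minpoly K θ).natDegree ≤ p ^ a' := by
    have h1 : minpoly K θ ∣ X ^ (p ^ a') - C h' := minpoly.dvd K θ (by simp [hh'])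
    have h2 := natDegree_le_of_dvd h1 (X_pow_sub_C_ne_zero hn h')
    rwa [natDegree_X_pow_sub_C] at h2
  have hdeg : finrank K (IntermediateField.adjoin K {θ}) = p ^ a' := by
    have h1 : finrank K (IntermediateField.adjoin K {θ}) = (minpoly K θ).natDegree :=
      IntermediateField.adjoin.finrank hint
    refine le_antisymm (by rw [h1]; exact hle) ?_
    refine Nat.le_of_dvd Module.finrank_pos ?_
    by_cases ha' : a' = 0
    · rw [ha', pow_zero]; exact one_dvd _
    have hnp : ∀ e : K, e ^ p ≠ h' := by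
      intro e he
      have h2 : (θ ^ (p ^ (a' - 1))) ^ p = (algebraMap K R e) ^ p := by
        rw [← pow_mul, ← pow_succ, Nat.sub_add_cancel (Nat.pos_of_ne_zero ha'), ← map_pow, he, hh']
      by_cases he0 : algebraMap K R e = 0
      · apply hmin (a' - 1) (by omega)
        refine ⟨0, ?_⟩
        rw [he0, zero_pow hp.ne_zero] at h2
        rw [map_zero]
        exact (pow_eq_zero_iff hp.ne_zero |>.1 h2).symm
      · obtain ⟨z, hz⟩ := hroot 1 (θ ^ (p ^ (a' - 1)) / algebraMap K R e) (by
          rw [pow_one, div_pow, h2, div_self (pow_ne_zero _ he0)])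
        apply hmin (a' - 1) (by omega)
        exact ⟨z * e, by rw [map_mul, hz, div_mul_cancel₀ _ he0]⟩
    set β : IntermediateField.adjoin K {θ} := IntermediateField.AdjoinSimple.gen K θ with hβ
    have h3 : β ^ (p ^ a') = algebraMap K _ h' := by
      apply Subtype.ext
      change (β : R) ^ (p ^ a') = algebraMap K R h'
      rw [hβ, IntermediateField.AdjoinSimple.coe_gen, hh']
    have h4 : (Algebra.norm K β) ^ (p ^ a') =
        h' ^ finrank K (IntermediateField.adjoin K {θ}) := by
      rw [← map_pow, h3, Algebra.norm_algebraMap]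
    exact DensDeg.dvd_of_pow_eq (k := k) hp h' _ hnp h4
  refine ⟨hfd, ⟨h', by rw [hdeg, hh']⟩, ?_⟩
  intro m v b hb hbv
  have hmin' : minpoly K θ = X ^ (p ^ a') - C h' := by
    have h1 : minpoly K θ ∣ X ^ (p ^ a') - C h' := minpoly.dvd K θ (by simp [hh'])
    refine (eq_of_monic_of_dvd_of_natDegree_le (minpoly.monic hint)
      (monic_X_pow_sub_C h' hn.ne') h1 ?_).symm
    rw [natDegree_X_pow_sub_C, ← hdeg, IntermediateField.adjoin.finrank hint]
  -- the automorphism
  obtain ⟨ζ, hζ⟩ : ∃ ζ : K, IsPrimitiveRoot ζ (p ^ a') := by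
    have hne : NeZero ((p ^ a' : ℕ) : k) := ⟨by
      rw [Nat.cast_ne_zero]; exact pow_ne_zero _ hp.ne_zero⟩
    obtain ⟨ζ, hζ⟩ := HasEnoughRootsOfUnity.exists_primitiveRoot k (p ^ a')
    exact ⟨algebraMap k K ζ, hζ.map_of_injective (algebraMap k K).injective⟩
  let pb := IntermediateField.adjoin.powerBasis hint
  have hgen : (pb.gen : R) = θ := by
    rw [IntermediateField.adjoin.powerBasis_gen, IntermediateField.AdjoinSimple.coe_gen]
  have hpbmin : minpoly K pb.gen = X ^ (p ^ a') - C h' := by
    rw [IntermediateField.adjoin.powerBasis_gen, IntermediateField.minpoly_gen, hmin']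
  have hdim : pb.dim = p ^ a' := by
    rw [← pb.natDegree_minpoly, hpbmin, natDegree_X_pow_sub_C]
  have hgenp : pb.gen ^ (p ^ a') = algebraMap K _ h' := by
    apply Subtype.ext
    change (pb.gen : R) ^ (p ^ a') = algebraMap K R h'
    rw [hgen, hh']
  have hrt : aeval (algebraMap K (IntermediateField.adjoin K {θ}) ζ * pb.gen)
      (minpoly K pb.gen) = 0 := by
    rw [hpbmin]
    simp only [map_sub, map_pow, aeval_X, aeval_C]
    rw [mul_pow, hgenp, ← map_pow, hζ.pow_eq_one, map_one, one_mul, sub_self]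
  let σ : IntermediateField.adjoin K {θ} →ₐ[K] IntermediateField.adjoin K {θ} := pb.lift _ hrt
  have hσ : σ pb.gen = algebraMap K _ ζ * pb.gen := pb.lift_gen _ _
  have hrepr : ∀ (x : IntermediateField.adjoin K {θ}) (i : Fin pb.dim),
      pb.basis.repr (σ x) i = pb.basis.repr x i * ζ ^ (i : ℕ) := by
    intro x i
    have h1 : σ x = ∑ l, (pb.basis.repr x l * ζ ^ (l : ℕ)) • pb.basis l := by
      conv_lhs => rw [← pb.basis.sum_repr x]
      rw [map_sum]
      refine Finset.sum_congr rfl fun l _ => ?_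
      rw [map_smul, pb.basis_eq_pow, map_pow, hσ, mul_pow, ← map_pow, mul_smul,
        Algebra.smul_def (ζ ^ (l : ℕ))]
    rw [h1, pb.basis.repr_sum_self]
  rcases eq_or_ne b 0 with hb0 | hb0
  · exact ⟨0, 0, by rw [hb0, map_zero, zero_mul]⟩
  obtain ⟨g, hg⟩ : ∃ g : IntermediateField.adjoin K {θ}, (g : R) = b := ⟨⟨b, hb⟩, rfl⟩
  have hg0 : g ≠ 0 := by
    rintro rfl
    exact hb0 hg.symm
  have hgv : g ^ (p ^ m) = algebraMap K _ v := by
    apply Subtype.ext
    change (g : R) ^ (p ^ m) = algebraMap K R v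
    rw [hg, hbv]
  have hq : (σ g / g) ^ (p ^ m) = 1 := by
    rw [div_pow, ← map_pow, hgv, AlgHom.commutes]
    refine div_self ?_
    rw [← hgv]; exact pow_ne_zero _ hg0
  obtain ⟨η, hη⟩ := hroot m ((σ g / g : IntermediateField.adjoin K {θ}) : R) (by
    have := congrArg (algebraMap (IntermediateField.adjoin K {θ}) R) hq
    rw [map_pow, map_one] at this
    exact this)
  have hη' : σ g = η • g := by
    rw [Algebra.smul_def]
    have h1 : algebraMap K (IntermediateField.adjoin K {θ}) η = σ g / g := Subtype.ext hη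
    rw [h1, div_mul_cancel₀ _ hg0]
  obtain ⟨i₀, hi₀⟩ : ∃ i₀, pb.basis.repr g i₀ ≠ 0 := by
    by_contra hcon
    push Not at hcon
    apply hg0
    rw [← pb.basis.sum_repr g]
    exact Finset.sum_eq_zero fun i _ => by rw [hcon i, zero_smul]
  have hηeq : ∀ i, pb.basis.repr g i ≠ 0 → ζ ^ (i : ℕ) = η := by
    intro i hi
    have h1 := hrepr g i
    rw [hη', map_smul, Finsupp.smul_apply, smul_eq_mul, mul_comm] at h1
    exact (mul_left_cancel₀ hi h1).symm
  have hsupp : ∀ i : Fin pb.dim, pb.basis.repr g i ≠ 0 → i = i₀ := by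
    intro i hi
    have h2 : ζ ^ (i : ℕ) = ζ ^ (i₀ : ℕ) := by rw [hηeq i hi, hηeq i₀ hi₀]
    exact Fin.ext (hζ.pow_inj (by have := i.2; omega) (by have := i₀.2; omega) h2)
  have hgeq : g = algebraMap K _ (pb.basis.repr g i₀) * pb.gen ^ (i₀ : ℕ) := by
    conv_lhs => rw [← pb.basis.sum_repr g]
    rw [Finset.sum_eq_single i₀]
    · rw [pb.basis_eq_pow, Algebra.smul_def]
    · intro i _ hi
      by_contra hne
      apply hi
      apply hsupp
      intro h0
      rw [h0, zero_smul] at hne
      exact hne rfl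
    · intro hnot; exact absurd (Finset.mem_univ _) hnot
  refine ⟨i₀, pb.basis.repr g i₀, ?_⟩
  rw [← hg, hgeq]
  change algebraMap K R _ * (pb.gen : R) ^ (i₀ : ℕ) = _
  rw [hgen, ← hgeq]

theorem krad_aux {k R : Type} [Field k] [IsAlgClosed k] [CharZero k] [Field R] [Algebra k R]
    {p : ℕ} (hp : p.Prime) (g c₀ : ℕ) (r : ℕ) :
    ∀ (K : Type) [Field K] [Algebra k K] [Algebra K R] [IsScalarTower k K R]
    (a : Fin r → ℕ) (h : Fin r → K) (θ : Fin r → R),
    (∀ i, θ i ^ (p ^ a i) = algebraMap K R (h i ^ g)) →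
    (∀ (m : ℕ) (e : Fin r → ℕ) (b : K), ∏ i, h i ^ e i = b ^ (p ^ m) →
      ∀ i, p ^ m ∣ c₀ * e i) →
    p ^ (∑ i, a i) ∣ (c₀ * g) ^ r * Module.finrank K R := by
  induction r with
  | zero =>
    intro K _ _ _ _ a h θ _ _
    simp
  | succ r ih =>
    intro K _ _ _ _ a h θ hθ hind
    obtain ⟨hfd, ⟨c, hc⟩, hdesc⟩ := krad_step (k := k) hp (θ 0) _ (hθ 0)
    set K' := IntermediateField.adjoin K {θ 0} with hK'
    set d := finrank K K' with hd
    have hfr : Module.Free K K' := Module.Free.of_divisionRing _ _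
    have hfr' : Module.Free K' R := Module.Free.of_divisionRing _ _
    -- the first radical
    have h1 : p ^ a 0 ∣ c₀ * (g * d) := by
      have h2 := hind (a 0) (Fin.cons (g * d) (fun _ => 0)) c ?_ 0
      · simpa using h2
      · rw [Fin.prod_univ_succ]
        simp only [Fin.cons_zero, Fin.cons_succ, pow_zero, Finset.prod_const_one, mul_one]
        apply (algebraMap K R).injective
        have h3 : (θ 0 ^ d) ^ (p ^ a 0) = (θ 0 ^ (p ^ a 0)) ^ d := by
          rw [← pow_mul, ← pow_mul, mul_comm]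
        rw [map_pow (algebraMap K R) c, hc, h3, hθ 0, ← map_pow, ← pow_mul]
    -- the others
    have htow : IsScalarTower k K' R := IsScalarTower.of_algebraMap_eq fun z => rfl
    have h2 := ih K' (fun i => a i.succ) (fun i => algebraMap K K' (h i.succ))
      (fun i => θ i.succ) (fun i => ?_) ?_
    · rw [Fin.sum_univ_succ, pow_add, ← Module.finrank_mul_finrank K K' R]
      have h3 : (c₀ * g) ^ (r + 1) * (d * Module.finrank K' R) =
          (c₀ * (g * d)) * ((c₀ * g) ^ r * Module.finrank K' R) := by ring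
      rw [← hd, h3]
      exact mul_dvd_mul h1 h2
    · rw [hθ i.succ, map_pow, map_pow]
      rfl
    · intro m e b heq i
      have h3 : (b : R) ^ (p ^ m) = algebraMap K R (∏ i : Fin r, h i.succ ^ e i) := by
        have h4 := congrArg (algebraMap K' R) heq
        rw [map_pow] at h4
        rw [map_prod]
        change (algebraMap K' R b) ^ (p ^ m) = _
        rw [← h4, map_prod]
        refine Finset.prod_congr rfl fun i _ => ?_
        rw [map_pow, map_pow]
        rfl
      obtain ⟨j, c', hc'⟩ := hdesc m _ b b.2 h3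
      have h5 := hind (m + a 0) (Fin.cons (g * j * p ^ m * (p ^ (m + a 0) - 1))
        (fun i => e i * p ^ a 0)) (c' * h 0 ^ (g * j * p ^ m)) ?_ i.succ
      · rw [Fin.cons_succ, pow_add, ← mul_assoc] at h5
        exact Nat.dvd_of_mul_dvd_mul_right (pow_pos hp.pos _) h5
      · rw [Fin.prod_univ_succ]
        simp only [Fin.cons_zero, Fin.cons_succ]
        apply (algebraMap K R).injective
        have h6 : (∏ i : Fin r, h i.succ ^ (e i * p ^ a 0)) =
            (∏ i : Fin r, h i.succ ^ e i) ^ (p ^ a 0) := by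
          rw [← Finset.prod_pow]
          exact Finset.prod_congr rfl fun i _ => by rw [pow_mul]
        have h7 : g * j * p ^ m + g * j * p ^ m * (p ^ (m + a 0) - 1) =
            g * j * p ^ m * p ^ (m + a 0) := by
          obtain ⟨t, ht⟩ : ∃ t, p ^ (m + a 0) = t + 1 :=
            ⟨p ^ (m + a 0) - 1, by have := pow_pos hp.pos (m + a 0); omega⟩
          rw [ht, Nat.add_sub_cancel]
          ring
        have h8 : algebraMap K R ((∏ i : Fin r, h i.succ ^ e i) ^ (p ^ a 0)) =
            algebraMap K R (c' ^ (p ^ (m + a 0)) * h 0 ^ (g * j * p ^ m)) := by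
          have h9 : (θ 0 ^ j) ^ (p ^ (m + a 0)) = (θ 0 ^ (p ^ a 0)) ^ (j * p ^ m) := by
            rw [← pow_mul, ← pow_mul, pow_add]
            congr 1
            ring
          rw [map_pow, ← h3, hc', ← pow_mul, ← pow_add, mul_pow, h9, hθ 0, map_mul, map_pow,
            map_pow, map_pow, ← pow_mul]
          congr 2
          ring
        rw [map_mul, h6, h8, ← map_mul]
        congr 1
        rw [mul_pow, ← pow_mul, ← h7, pow_add (h 0)]
        ring

/-- Kummer theory with loss: radicals of elements that are independent modulo `p ^ m`-th powers up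
to the factor `c₀`. -/
theorem dvd_radicals_loss {k K R : Type} [Field k] [IsAlgClosed k] [CharZero k] [Field K]
    [Field R] [Algebra k K] [Algebra K R] [Algebra k R] [IsScalarTower k K R] {p r : ℕ}
    (hp : p.Prime) (g c₀ : ℕ) (a : Fin r → ℕ) (h : Fin r → K) (θ : Fin r → R)
    (hθ : ∀ i, θ i ^ (p ^ a i) = algebraMap K R (h i ^ g))
    (hind : ∀ (m : ℕ) (e : Fin r → ℕ) (b : K), ∏ i, h i ^ e i = b ^ (p ^ m) →
      ∀ i, p ^ m ∣ c₀ * e i) :
    p ^ (∑ i, a i) ∣ (c₀ * g) ^ r * Module.finrank K R :=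
  krad_aux (k := k) hp g c₀ r K a h θ hθ hind

end Pool.Agent.MultiAll
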