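import Pool.Agent.MultiAll.FormsG
import Pool.Agent.DensDeg.TMain
import Pool.Agent.DensDeg.Cond

/-!
All divisibility theorems together, and their consequence for almost all multidegrees.
-/

set_option autoImplicit false

namespace Pool.Agent.MultiAll

open MvPolynomial Pool.Agent.CurveDeg Pool.Agent.MultiSpec Pool.Agent.DensDeg

/-- **Theorem.**  For all `n` and `r` there is `c` such that off countably many proper closed sets
the degree `e` of every curve on the complete intersection of type `d` and dimension `n` satisfies: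
* `p ^ a ∣ c e` whenever the prime power `p ^ a` divides `d k` and `c p ^ a ≤ d k`;
* `p ^ ∑ a i ∣ e` whenever `p > n` is an odd prime and for every `i` with `a i ≠ 0` either
  `2 ^ n n! p ^ a i` divides `d i`, or `p ^ a i` divides `d i` and `2 ^ n n! p ^ (n a i) ≤ d i`;
* `p ^ ∑ a i ∣ c e` whenever `p` is a prime and for every `i` with `a i ≠ 0` `p ^ a i` divides `d i`
  and `2 ^ n n! p ^ (n a i) ≤ d i`. -/
theorem main_all (n r : ℕ) : ∃ c : ℕ, 0 < c ∧ ∀ d : Fin r → ℕ,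
    ∃ bad : ℕ → MvPolynomial (Σ i : Fin r, {m : Fin (n + r + 1) →₀ ℕ // m.degree = d i}) ℂ,
      (∀ j, bad j ≠ 0) ∧
      ∀ f : Fin r → MvPolynomial (Fin (n + r + 1)) ℂ,
        (∀ i, f i ∈ homogeneousSubmodule (Fin (n + r + 1)) ℂ (d i)) →
        (∀ j, eval (fun x => coeff x.2.1 (f x.1)) (bad j) ≠ 0) →
        ∀ I : Ideal (MvPolynomial (Fin (n + r + 1)) ℂ), Homog I → I.IsPrime →
          ringKrullDim (MvPolynomial (Fin (n + r + 1)) ℂ ⧸ I) = 2 →
          (∀ i, f i ∈ I) →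
          ∃ e : ℕ, (∃ K : ℕ, ∀ k : ℕ, K ≤ k → hilb I (k + 1) = hilb I k + e) ∧
            (∀ (k : Fin r) (p a : ℕ), p.Prime → p ^ a ∣ d k → c * p ^ a ≤ d k →
              p ^ a ∣ c * e) ∧
            (∀ (p : ℕ) (a : Fin r → ℕ), p.Prime → p ≠ 2 → n < p →
              (∀ i, a i = 0 ∨ 2 ^ n * Nat.factorial n * p ^ a i ∣ d i ∨
                (p ^ a i ∣ d i ∧ 2 ^ n * Nat.factorial n * (p ^ a i) ^ n ≤ d i)) →
              p ^ (∑ i, a i) ∣ e) ∧
            ∀ (p : ℕ) (a : Fin r → ℕ), p.Prime →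
              (∀ i, a i = 0 ∨
                (p ^ a i ∣ d i ∧ 2 ^ n * Nat.factorial n * (p ^ a i) ^ n ≤ d i)) →
              p ^ (∑ i, a i) ∣ c * e := by
  obtain ⟨c₁, hc₁, hT⟩ : ∃ c : ℕ, 0 < c ∧ ∀ (r : ℕ) (d : Fin r → ℕ) (k : Fin r)
      (p a : ℕ), p.Prime → p ^ a ∣ d k → c * p ^ a ≤ d k →
        HasSpecial n r d (p ^ a / Nat.gcd (p ^ a) c) := by
    rcases Nat.eq_zero_or_pos n with h0 | hn
    · subst h0
      exact ⟨1, one_pos, fun r d _ _ _ _ _ _ => hasSpecial_zero r d _⟩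
    · exact hasSpecial_T n hn
  set c₂ := ((2 ^ n * Nat.factorial n) * Nat.factorial (max n 2)) ^ r *
    ((2 ^ r * Nat.factorial n ^ 2) ^ r * Nat.factorial (max n 2) ^ (n + r * n)) with hc₂
  have hc₂0 : 0 < c₂ := by positivity
  refine ⟨c₁ * c₂, Nat.mul_pos hc₁ hc₂0, fun d => ?_⟩
  obtain ⟨bad, h1, h2⟩ := main_of_special n r d
  refine ⟨bad, h1, fun f hf hb I hI hIp hdim hfI => ?_⟩
  obtain ⟨e, he, h3⟩ := h2 f hf hb I hI hIp hdim hfI
  refine ⟨e, he, fun k p a hp hdvd hle => ?_, fun p a hp hp2 hnp hd =>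
    h3 _ (hasSpecial hp hp2 hnp a d hd), fun p a hp hd => ?_⟩
  · have hle' : c₁ * p ^ a ≤ d k :=
      le_trans (Nat.mul_le_mul_right _ (Nat.le_mul_of_pos_right _ hc₂0)) hle
    have h4 := h3 _ (hT r d k p a hp hdvd hle')
    have h5 : p ^ a ∣ c₁ * e := by
      calc p ^ a = Nat.gcd (p ^ a) c₁ * (p ^ a / Nat.gcd (p ^ a) c₁) :=
            (Nat.mul_div_cancel' (Nat.gcd_dvd_left _ _)).symm
        _ ∣ c₁ * e := mul_dvd_mul (Nat.gcd_dvd_right _ _) h4
    refine h5.trans ⟨c₂, ?_⟩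
    ring
  · obtain ⟨M, hM, hdvd⟩ := hasSpecialG hp a d hd
    refine hdvd.trans ?_
    rw [← hc₂]
    refine (mul_dvd_mul_left c₂ (h3 M hM)).trans ⟨c₁, ?_⟩
    ring

/-- The consequence. -/
theorem prod_dvd_of_cond {n r c : ℕ} (hn : 0 < n) (hc : 0 < c) {d : Fin r → ℕ}
    (hd : ∀ i, 1 ≤ d i)
    (hcond : Density.Cond (max c (2 ^ n * Nat.factorial n)) (max c (max n 2)) n d) {e : ℕ}
    (hT : ∀ (k : Fin r) (p a : ℕ), p.Prime → p ^ a ∣ d k → c * p ^ a ≤ d k → p ^ a ∣ c * e)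
    (hR : ∀ (p : ℕ) (a : Fin r → ℕ), p.Prime → p ≠ 2 → n < p →
      (∀ i, a i = 0 ∨ 2 ^ n * Nat.factorial n * p ^ a i ∣ d i ∨
        (p ^ a i ∣ d i ∧ 2 ^ n * Nat.factorial n * (p ^ a i) ^ n ≤ d i)) →
      p ^ (∑ i, a i) ∣ e)
    (hA : ∀ (p : ℕ) (a : Fin r → ℕ), p.Prime →
      (∀ i, a i = 0 ∨ (p ^ a i ∣ d i ∧ 2 ^ n * Nat.factorial n * (p ^ a i) ^ n ≤ d i)) →
      p ^ (∑ i, a i) ∣ c * e) :
    ∏ i, d i ∣ (2 * Nat.factorial n) ^ c * e := by
  classical
  have hd0 : ∀ i, d i ≠ 0 := fun i => by have := hd i; omega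
  have hprod0 : ∏ i, d i ≠ 0 := Finset.prod_ne_zero_iff.2 fun i _ => hd0 i
  have hfac : ∀ p : ℕ, (∏ i, d i).factorization p = ∑ i, (d i).factorization p := by
    intro p
    rw [Nat.factorization_prod fun i _ => hd0 i]
    simp
  refine dvd_of_prime_pow hprod0 fun p hp _ => ?_
  rw [hfac]
  by_cases hp2 : p ∣ 2 * Nat.factorial n
  · -- a small prime
    have hsmall : p ≤ max n 2 := by
      rcases hp.dvd_mul.1 hp2 with h | h
      · exact (Nat.le_of_dvd (by norm_num) h).trans (le_max_right _ _)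
      · exact (hp.dvd_factorial.1 h).trans (le_max_left _ _)
    have h0 : ∀ i, p ∣ d i → max c (2 ^ n * Nat.factorial n) *
        (p ^ (d i).factorization p) ^ n ≤ d i := by
      rcases hcond p hp with h | ⟨hKp, _⟩
      · exact h
      · exact absurd (hsmall.trans (le_max_right c _)) (not_le.2 hKp)
    have h1 : p ^ (∑ i, (d i).factorization p) ∣ c * e := by
      refine hA p (fun i => (d i).factorization p) hp fun i => ?_
      by_cases hpi : p ∣ d i
      · exact Or.inr ⟨Nat.ordProj_dvd _ _, le_trans (Nat.mul_le_mul_right _ (le_max_right _ _))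
          (h0 i hpi)⟩
      · exact Or.inl (Nat.factorization_eq_zero_of_not_dvd hpi)
    have h2 : p ^ c ∣ (2 * Nat.factorial n) ^ c := pow_dvd_pow_of_dvd hp2 c
    by_cases he : e = 0
    · rw [he, mul_zero]; exact dvd_zero _
    have h3 : (∑ i, (d i).factorization p) ≤ (c * e).factorization p :=
      (hp.pow_dvd_iff_le_factorization (Nat.mul_ne_zero hc.ne' he)).1 h1
    rw [Nat.factorization_mul hc.ne' he, Finsupp.add_apply] at h3
    have h4 : c.factorization p ≤ c := (Nat.factorization_lt p hc.ne').le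
    have h5 : p ^ (c + e.factorization p) ∣ (2 * Nat.factorial n) ^ c * e := by
      rw [pow_add]
      exact mul_dvd_mul h2 (Nat.ordProj_dvd _ _)
    exact (pow_dvd_pow p (by omega)).trans h5
  · have hcop : ((∏ i, p ^ (d i).factorization p)).Coprime (2 * Nat.factorial n) := by
      rw [Finset.prod_pow_eq_pow_sum]
      exact Nat.Coprime.pow_left _ ((Nat.Prime.coprime_iff_not_dvd hp).2 hp2)
    have h1 := (good_of_cond hn hc hd hcond hT hR).1 _
      (Finset.prod_dvd_prod_of_dvd _ _ fun i _ => Nat.ordProj_dvd (d i) p) hcop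
    rw [Finset.prod_pow_eq_pow_sum] at h1
    exact h1.mul_left _

end Pool.Agent.MultiAll
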